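import Pool.Agent.Lib.MP_a57f33_nt.FL.Stm

/-!
The assembly of the theorem on free lifts in `dm₀`.
-/

namespace Pool.Agent.MP_a57f33_nt.FL

open Pool.Agent.MP_a57f33_nt

/-- The Brown-Zagier relation for an element of weight `2k+3`. -/
def BZrel : Prop := ∀ ψ ∈ dm0, ∀ k : ℕ, IsHom (2 * k + 3) ψ → ∀ a b : ℕ, a + b = k →
  coeff ψ (hoff (rep a ++ true :: rep b)) =
    2 * (-1) ^ (k + 1) * bz a b * coeff ψ (rep (2 * k + 2) ++ [true])

lemma asm_good (h1 : Ar1S) (h2 : EndS) (h3 : BZrel) {ψ : QX} (h : ψ ∈ dm0) {k : ℕ}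
    (hh : IsHom (2 * k + 3) ψ) (hc : coeff ψ (rep (2 * k + 2) ++ [true]) ≠ 0) :
    Good k (coeff ψ) := by
  have : Fact (Nat.Prime 2) := ⟨Nat.prime_two⟩
  set κ := coeff ψ (rep (2 * k + 2) ++ [true]) with hκ
  have hbz := h3 ψ h k hh
  rw [← hκ] at hbz
  have hend := h2 ψ h.1 k κ hbz
  obtain ⟨hn, hab⟩ := h1 k
  set C : ℚ := 2 * (-1) ^ (k + 1) * κ with hC
  have hCne : C ≠ 0 := by
    rw [hC]
    exact mul_ne_zero (mul_ne_zero two_ne_zero (pow_ne_zero _ (by norm_num))) hc
  have hCpos : 0 < padicNorm 2 C :=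
    lt_of_le_of_ne (padicNorm.nonneg _) (Ne.symm (padicNorm.nonzero hCne))
  have hbz' : ∀ a b : ℕ, a + b = k →
      coeff ψ (hoff (rep a ++ true :: rep b)) = C * bz a b := by
    intro a b hk
    rw [hbz a b hk, hC]; ring
  have hlam : lam k (coeff ψ) = C * bz 0 k := by
    unfold lam
    exact hbz' 0 k (by omega)
  clear_value C
  refine ⟨hh, ?_, ?_, ?_, ?_⟩
  · rw [hlam]
    apply mul_ne_zero hCne
    intro h0
    rw [h0, padicNorm.zero] at hn
    linarith
  · intro a b hk
    rw [hlam, hbz' a b hk, padicNorm.mul, padicNorm.mul]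
    exact mul_le_mul_of_nonneg_left (hab a b hk).1 hCpos.le
  · intro a b hk
    rw [hlam, hbz' a b hk, hbz' b a (by omega), ← mul_sub, padicNorm.mul, padicNorm.mul]
    exact mul_lt_mul_of_pos_left (lt_of_le_of_lt (hab a b hk).2 hn) hCpos
  · rw [hlam, hend, padicNorm.mul]
    calc padicNorm 2 C = padicNorm 2 C * 1 := (mul_one _).symm
      _ < padicNorm 2 C * padicNorm 2 (bz 0 k) := mul_lt_mul_of_pos_left hn hCpos

lemma asm_rev {ψ : QX} (h : ψ ∈ LieX) {k : ℕ} (hh : IsHom (2 * k + 3) ψ) (w : List Bool) :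
    coeff ψ w.reverse = coeff ψ w := by
  by_cases hw : w.length = 2 * k + 3
  · rw [lie_reverse h, hw]
    have : (-1 : ℚ) ^ (2 * k + 3 + 1) = 1 := by
      rw [show 2 * k + 3 + 1 = 2 * (k + 2) by ring, pow_mul]
      norm_num
    rw [this, one_mul]
  · rw [hh w hw, hh w.reverse (by rw [List.length_reverse]; exact hw)]

lemma asm_hoff_inj : Function.Injective hoff := by
  intro a
  induction a with
  | nil =>
    intro b h
    cases b with
    | nil => rfl
    | cons y b => cases y <;> simp [hoff] at h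
  | cons x a ih =>
    intro b h
    cases b with
    | nil => cases x <;> simp [hoff] at h
    | cons y b =>
      cases x <;> cases y
      · simp only [hoff, List.cons.injEq, true_and] at h
        rw [ih h]
      · simp [hoff] at h
      · simp [hoff] at h
      · simp only [hoff, List.cons.injEq, true_and] at h
        rw [ih h]

lemma asm_hoff_rep (j : ℕ) : (hoff (rep j)).length = 2 * j := by
  induction j with
  | zero => rfl
  | succ j ih =>
    rw [rep, List.replicate_succ]
    simp only [hoff, List.length_cons]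
    rw [ih]
    ring

lemma asm_hom {ψ : ℕ → QX} (hh : ∀ k, IsHom (2 * k + 3) (ψ k)) (l : List ℕ) (j : ℕ) :
    IsHom (iwt (l, j)) (elt ψ l j) := by
  induction l with
  | nil =>
    simp only [elt]
    have := isHom_word (hoff (List.replicate j false))
    rw [asm_hoff_rep] at this
    simpa [iwt] using this
  | cons k l ih =>
    simp only [elt, act]
    have : iwt (k :: l, j) = 2 * k + 3 + iwt (l, j) := by
      simp only [iwt, List.map_cons, List.sum_cons]
      ring
    rw [this]
    exact ((hh k).mul ih).add (isHom_der (hh k) ih)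

lemma asm_finite (N : ℕ) : {b : List Bool | (hoff b).length = N}.Finite := by
  have hl : ∀ v : List Bool, v.length ≤ (hoff v).length := by
    intro v
    induction v with
    | nil => simp
    | cons x v ih => cases x <;> simp only [hoff, List.length_cons] <;> omega
  refine Set.Finite.subset (List.finite_length_le Bool N) ?_
  intro b hb
  have := hl b
  simp only [Set.mem_ofPred_eq] at hb ⊢
  omega

/-- The restriction to the words in the blocks. -/
noncomputable def asm_res : QX →ₗ[ℚ] (List Bool → ℚ) where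
  toFun φ := fun b => coeff φ (hoff b)
  map_add' x y := by funext b; exact coeff_add _ _ _
  map_smul' r x := by funext b; exact coeff_smul _ _ _

theorem asm_main (act : ActS) (frm : FrmS) (est : EstS) (inj : InjS) (ar1 : Ar1S) (en : EndS)
    (lin : LinS) (eqv : EqvS) (bas : BasS) (lie : LieS) (fre : FreS) (bz : BZrel)
    (ψ : ℕ → QX) (h : ∀ k, ψ k ∈ dm0) (hh : ∀ k, IsHom (2 * k + 3) (ψ k))
    (hc : ∀ k, coeff (ψ k) (List.replicate (2 * k + 2) false ++ [true]) ≠ 0) :
    (∀ N : ℕ,
      LinearIndependent ℚ (fun (i : {i : List ℕ × ℕ // iwt i = N})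
        (b : {b : List Bool // (hoff b).length = N}) => coeff (elt ψ i.1.1 i.1.2) (hoff b.1)) ∧
      Submodule.span ℚ (Set.range (fun (i : {i : List ℕ × ℕ // iwt i = N})
        (b : {b : List Bool // (hoff b).length = N}) =>
          coeff (elt ψ i.1.1 i.1.2) (hoff b.1))) = ⊤) ∧
    ∃ L : LieN →ₗ[ℚ] QX, Function.Injective L ∧
      (∀ (k : ℕ) (hk : FreeAlgebra.ι ℚ k ∈ LieN), L ⟨FreeAlgebra.ι ℚ k, hk⟩ = ψ k) ∧
      ∀ P Q : LieN, L ⁅P, Q⁆ = ihara (L P) (L Q) := by
  have hgood : ∀ k, Good k (coeff (ψ k)) := fun k => asm_good ar1 en bz (h k) (hh k) (hc k)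
  have hzero : ∀ (i : List ℕ × ℕ) (b : List Bool), (hoff b).length ≠ iwt i →
      coeff (elt ψ i.1 i.2) (hoff b) = 0 := by
    intro i b hb
    exact asm_hom hh i.1 i.2 _ hb
  have hli : LinearIndependent ℚ
      (fun (i : List ℕ × ℕ) (b : List Bool) => coeff (elt ψ i.1 i.2) (hoff b)) := by
    refine lin est inj (fun k => coeff (ψ k)) hgood _ ?_ ?_ ?_
    · intro j b
      simp only [elt]
      rw [coeff_word]
      by_cases hb : b = rep j
      · rw [if_pos (by rw [hb]), if_pos hb]
      · rw [if_neg (fun e => hb (asm_hoff_inj e).symm), if_neg hb]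
    · intro k l j b
      simp only [elt]
      rw [act, frm _ (asm_rev (h k).1 (hh k))]
    · intro i
      refine Set.Finite.subset (asm_finite (iwt i)) ?_
      intro b hb
      by_contra hb'
      exact hb (hzero i b hb')
  refine ⟨fun N => bas eqv _ hli hzero N, ?_⟩
  refine fre lie ψ ?_
  have h2 : LinearIndependent ℚ (fun l : List ℕ => asm_res (elt ψ l 0)) := by
    refine LinearIndependent.comp hli (fun l : List ℕ => ((l, 0) : List ℕ × ℕ)) ?_
    intro l l' e
    exact (Prod.mk.inj e).1
  exact LinearIndependent.of_comp asm_res h2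

end Pool.Agent.MP_a57f33_nt.FL
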