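import Pool.Agent.Lib.MP_a57f33_nt.IharaLemmas

/-!
Definitions for the theorem on free lifts in `dm₀`.
-/

namespace Pool.Agent.MP_a57f33_nt.FL

open Pool.Agent.MP_a57f33_nt

/-- `S_ψ(φ) = ψ φ + D_ψ(φ)`, where `D_ψ` is the derivation of `ℚ⟨x₀, x₁⟩` with `D_ψ(x₀) = 0` and
`D_ψ(x₁) = [x₁, ψ]`. -/
noncomputable def act (ψ φ : QX) : QX := ψ * φ + der ψ φ

/-- The word in `x₀, x₁` of a word in the blocks `y₂ = x₀x₁` (`false`) and `y₃ = x₀x₀x₁`
(`true`). -/
def hoff : List Bool → List Bool
  | [] => []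
  | false :: b => false :: true :: hoff b
  | true :: b => false :: false :: true :: hoff b

/-- `elt ψ [k₁, …, k_m] j = S_{ψ_{k₁}} ⋯ S_{ψ_{k_m}} ((x₀x₁)^j)`. -/
noncomputable def elt (ψ : ℕ → QX) : List ℕ → ℕ → QX
  | [], j => word (hoff (List.replicate j false))
  | k :: l, j => act (ψ k) (elt ψ l j)

/-- The weight `∑ (2 k_i + 3) + 2 j` of the index `([k₁, …, k_m], j)`. -/
def iwt (i : List ℕ × ℕ) : ℕ := (i.1.map fun k => 2 * k + 3).sum + 2 * i.2

section

attribute [local instance 100] LieRing.ofAssociativeRing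

/-- The free Lie algebra on `e₀, e₁, e₂, …`: the Lie subalgebra of the free associative algebra
`ℚ⟨e₀, e₁, e₂, …⟩` generated by the letters. -/
noncomputable def LieN : LieSubalgebra ℚ (FreeAlgebra ℚ ℕ) :=
  LieSubalgebra.lieSpan ℚ (FreeAlgebra ℚ ℕ) (Set.range (FreeAlgebra.ι ℚ))

end

/-- The number of blocks `y₃` (the level). -/
def lev (b : List Bool) : ℕ := b.count true

/-- `y₂^a`. -/
abbrev rep (a : ℕ) : List Bool := List.replicate a false

/-- `up g (y₃ s) = g (y₂ s)`, `up g = 0` on the other words. -/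
def up (g : List Bool → ℚ) : List Bool → ℚ
  | true :: s => g (false :: s)
  | _ => 0

/-- `low G` is `G` on the words not beginning with `x₁`, and `0` on the others. -/
def low (G : List Bool → ℚ) : List Bool → ℚ
  | true :: _ => 0
  | s => G s

/-- The action on coefficient functions: `A w F G = (S_ψ φ | w)` for `F = (ψ|·)`, `G = (φ|·)`. -/
def A (F : List Bool → ℚ) : List Bool → (List Bool → ℚ) → ℚ
  | [], G => F [] * G []
  | a :: w, G => conv (a :: w) F (low G) + A F w (fun s => G (a :: s))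
      - (if a then 0 else conv w F (fun s => G (a :: s)))

/-- The part of the action on words in the blocks that is small `2`-adically:
`R F b g = Σ_{b = p v s, p ≠ ∅} (F(v) - F(rev v)) g(p s) + Σ_{b = p v y₃ s} F(v x₀) g(p y₂ s)
 - Σ_{b = p y₃ v s} F(rev v x₀) g(p y₂ s)`. (First sum: the terms with `p = ∅` are included too.) -/
def R (F : List Bool → ℚ) : List Bool → (List Bool → ℚ) → ℚ
  | [], _ => 0
  | x :: b, g => conv (x :: b) (fun v => F (hoff v) - F (hoff v.reverse)) g
      + conv (x :: b) (fun v => F (hoff v ++ [false])) (up g)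
      - (if x then conv b (fun v => F (hoff v.reverse ++ [false])) (fun s => g (false :: s)) else 0)
      + R F b (fun s => g (x :: s))

/-- The action on words in the blocks. -/
def T (F : List Bool → ℚ) (b : List Bool) (g : List Bool → ℚ) : ℚ :=
  conv b (fun v => F (hoff v.reverse)) g + R F b g

/-- The normalising coefficient `(ψ | y₃ y₂^k)`. -/
def lam (k : ℕ) (F : List Bool → ℚ) : ℚ := F (hoff (true :: rep k))

/-- The `2`-adic estimates used in the proof. -/
structure Good (k : ℕ) (F : List Bool → ℚ) : Prop where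
  hom : ∀ w : List Bool, w.length ≠ 2 * k + 3 → F w = 0
  ne : lam k F ≠ 0
  le : ∀ a b : ℕ, a + b = k →
    padicNorm 2 (F (hoff (rep a ++ true :: rep b))) ≤ padicNorm 2 (lam k F)
  lt : ∀ a b : ℕ, a + b = k →
    padicNorm 2 (F (hoff (rep a ++ true :: rep b)) - F (hoff (rep b ++ true :: rep a))) <
      padicNorm 2 (lam k F)
  lt' : padicNorm 2 (F (hoff (rep (k + 1)) ++ [false])) < padicNorm 2 (lam k F)

end Pool.Agent.MP_a57f33_nt.FL
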