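import Pool.Agent.Lib.MP_a57f33_nt.FL.Main0
import Pool.Agent.Lib.MP_a57f33_nt.BZ.Fin5

/-!
The theorem on free lifts in `dm₀`.
-/

namespace Pool.Agent.MP_a57f33_nt.FL

open Pool.Agent.MP_a57f33_nt

lemma main_bl_succ (a : ℕ) : BZ.bl (a + 1) = false :: true :: BZ.bl a := by
  unfold BZ.bl
  rw [List.replicate_succ, List.flatten_cons]
  rfl

lemma main_hoff_rep (a : ℕ) : hoff (rep a) = BZ.bl a := by
  induction a with
  | zero => rfl
  | succ a ih =>
    rw [rep, List.replicate_succ, main_bl_succ]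
    simp only [hoff]
    rw [ih]

lemma main_hw (a b : ℕ) : hoff (rep a ++ true :: rep b) = BZ.hw b a := by
  unfold BZ.hw
  rw [eqv_hoff_append, main_hoff_rep, main_bl_succ]
  simp only [hoff]
  rw [main_hoff_rep]

lemma main_bz : BZrel := by
  intro ψ h k _ a b hk
  subst hk
  rw [main_hw, BZ.brown_zagier h b a]
  unfold bz
  have e1 : b + a + 1 = a + b + 1 := by ring
  have e2 : (2 : ℚ) ^ (2 * (a + b + 1)) = 4 ^ (a + b + 1) := by
    rw [pow_mul]; norm_num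
  have e3 : 2 * (a + b + 1) = 2 * (a + b) + 2 := by ring
  rw [e1, e2]
  conv_lhs => rw [show List.replicate (2 * (a + b + 1)) false = rep (2 * (a + b) + 2) by rw [e3]]

theorem fl_main (ψ : ℕ → QX) (h : ∀ k, ψ k ∈ dm0) (hh : ∀ k, IsHom (2 * k + 3) (ψ k))
    (hc : ∀ k, coeff (ψ k) (List.replicate (2 * k + 2) false ++ [true]) ≠ 0) :
    (∀ N : ℕ,
      LinearIndependent ℚ (fun (i : {i : List ℕ × ℕ // iwt i = N})
        (b : {b : List Bool // (hoff b).length = N}) => coeff (elt ψ i.1.1 i.1.2) (hoff b.1)) ∧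
      Submodule.span ℚ (Set.range (fun (i : {i : List ℕ × ℕ // iwt i = N})
        (b : {b : List Bool // (hoff b).length = N}) =>
          coeff (elt ψ i.1.1 i.1.2) (hoff b.1))) = ⊤) ∧
    ∃ L : LieN →ₗ[ℚ] QX, Function.Injective L ∧
      (∀ (k : ℕ) (hk : FreeAlgebra.ι ℚ k ∈ LieN), L ⟨FreeAlgebra.ι ℚ k, hk⟩ = ψ k) ∧
      ∀ P Q : LieN, L ⁅P, Q⁆ = ihara (L P) (L Q) :=
  fl_of_bz main_bz ψ h hh hc

end Pool.Agent.MP_a57f33_nt.FL
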