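import Pool.Agent.Lib.MP_a57f33_nt.FL.Stm

/-!
The coefficients of `S_ψ(φ)`.
-/

namespace Pool.Agent.MP_a57f33_nt.FL

open Pool.Agent.MP_a57f33_nt

/-- The words beginning with `true`. -/
def act_hi (G : List Bool → ℚ) : List Bool → ℚ
  | true :: s => G (true :: s)
  | _ => 0

lemma act_low_add_hi (G : List Bool → ℚ) (s : List Bool) : low G s + act_hi G s = G s := by
  match s with
  | [] => simp [low, act_hi]
  | true :: s => simp [low, act_hi]
  | false :: s => simp [low, act_hi]

/-- The recursion for the derivation. -/
def act_D (F : List Bool → ℚ) : List Bool → (List Bool → ℚ) → ℚ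
  | [], _ => 0
  | a :: w, G => act_D F w (fun s => G (a :: s)) + (if a then conv w F (fun s => G (a :: s)) else 0)
      - conv (a :: w) F (act_hi G)

lemma act_D_zero (F : List Bool → ℚ) (w : List Bool) : act_D F w (fun _ => 0) = 0 := by
  induction w with
  | nil => rfl
  | cons a w ih =>
    have h1 : act_hi (fun _ => 0) = fun _ => 0 := by
      funext s
      match s with
      | [] => rfl
      | true :: s => rfl
      | false :: s => rfl
    simp only [act_D, ih, h1, conv_zero_right]
    simp

lemma act_D_add (F : List Bool → ℚ) (w : List Bool) : ∀ (G G' : List Bool → ℚ),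
    act_D F w (fun s => G s + G' s) = act_D F w G + act_D F w G' := by
  induction w with
  | nil => intro G G'; simp [act_D]
  | cons a w ih =>
    intro G G'
    have h1 : act_hi (fun s => G s + G' s) = fun s => act_hi G s + act_hi G' s := by
      funext s
      match s with
      | [] => simp [act_hi]
      | true :: s => rfl
      | false :: s => simp [act_hi]
    simp only [act_D]
    rw [h1, ih (fun s => G (a :: s)) (fun s => G' (a :: s)), conv_add_right, conv_add_right]
    split_ifs <;> ring

lemma act_conv_smul_right {X : Type} (w : List X) (r : ℚ) : ∀ (f g : List X → ℚ),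
    conv w f (fun t => r * g t) = r * conv w f g := by
  induction w with
  | nil => intro f g; simp only [conv]; ring
  | cons b w ih => intro f g; simp only [conv, ih]; ring

lemma act_D_smul (F : List Bool → ℚ) (r : ℚ) (w : List Bool) : ∀ (G : List Bool → ℚ),
    act_D F w (fun s => r * G s) = r * act_D F w G := by
  induction w with
  | nil => intro G; simp [act_D]
  | cons a w ih =>
    intro G
    have h1 : act_hi (fun s => r * G s) = fun s => r * act_hi G s := by
      funext s
      match s with
      | [] => simp [act_hi]
      | true :: s => rfl
      | false :: s => simp [act_hi]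
    simp only [act_D]
    rw [h1, ih (fun s => G (a :: s)), act_conv_smul_right, act_conv_smul_right]
    split_ifs <;> ring

/-- The functional as a linear map in `φ`. -/
noncomputable def act_DL (F : List Bool → ℚ) (w : List Bool) : QX →ₗ[ℚ] ℚ where
  toFun φ := act_D F w (coeff φ)
  map_add' := by
    intro x y
    rw [← act_D_add]
    congr 1
    funext t; exact coeff_add _ _ _
  map_smul' := by
    intro r x
    simp only [RingHom.id_apply, smul_eq_mul]
    rw [← act_D_smul]
    congr 1
    funext t; exact coeff_smul _ _ _

lemma act_hi_iota_true (φ : QX) :
    act_hi (coeff (FreeAlgebra.ι ℚ true * φ)) = coeff (FreeAlgebra.ι ℚ true * φ) := by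
  funext s
  match s with
  | [] => simp [act_hi, coeff_iota_mul_nil]
  | true :: s => rfl
  | false :: s => simp [act_hi, coeff_iota_mul_cons]

lemma act_hi_iota_false (φ : QX) :
    act_hi (coeff (FreeAlgebra.ι ℚ false * φ)) = fun _ => 0 := by
  funext s
  match s with
  | [] => simp [act_hi]
  | true :: s => simp [act_hi, coeff_iota_mul_cons]
  | false :: s => simp [act_hi]

lemma act_der_word (ψ : QX) (u : List Bool) : ∀ w : List Bool,
    coeff (der ψ (word u)) w = act_D (coeff ψ) w (coeff (word u)) := by
  induction u with
  | nil =>
    intro w
    rw [word_nil, der_one, coeff_zero]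
    cases w with
    | nil => rfl
    | cons a w =>
      have h1 : (fun s => coeff (1 : QX) (a :: s)) = fun _ => 0 := by
        funext s; rw [← word_nil, coeff_word]; simp
      have h2 : act_hi (coeff (1 : QX)) = fun _ => 0 := by
        funext s
        match s with
        | [] => simp [act_hi]
        | true :: s => simp only [act_hi]; rw [← word_nil, coeff_word]; simp
        | false :: s => simp [act_hi]
      simp only [act_D, h1, h2, act_D_zero, conv_zero_right]
      simp
  | cons c u ih =>
    intro w
    rw [word_cons, der_mul, coeff_add]
    cases w with
    | nil =>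
      rw [coeff_iota_mul_nil]
      cases c with
      | false => rw [der_false, zero_mul, coeff_zero]; simp [act_D]
      | true =>
        rw [der_true, coeff_mul]
        simp only [conv, act_D]
        rw [coeff_sub, coeff_iota_mul_nil, coeff_mul]
        simp only [conv]
        rw [coeff_iota]
        simp
    | cons a w =>
      have hG : (fun s => coeff (FreeAlgebra.ι ℚ c * word u) (a :: s)) =
          fun s => (if a = c then (1 : ℚ) else 0) * coeff (word u) s := by
        funext s; rw [coeff_iota_mul_cons]; split_ifs <;> simp
      rw [coeff_iota_mul_cons, ih w]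
      simp only [act_D]
      rw [hG, act_D_smul]
      cases c with
      | false =>
        rw [der_false, zero_mul, coeff_zero, act_hi_iota_false, conv_zero_right]
        cases a <;> simp [conv_zero_right]
      | true =>
        rw [der_true, act_hi_iota_true, sub_mul, mul_assoc, mul_assoc, coeff_sub,
          coeff_iota_mul_cons, coeff_mul ψ (FreeAlgebra.ι ℚ true * word u), coeff_mul]
        cases a
        · simp
        · simp
          ring

lemma act_der (ψ φ : QX) (w : List Bool) :
    coeff (der ψ φ) w = act_D (coeff ψ) w (coeff φ) := by
  have : (coeffL w).comp (derL ψ) = act_DL (coeff ψ) w := by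
    apply linear_ext
    intro u
    exact act_der_word ψ u w
  exact LinearMap.congr_fun this φ

theorem p_act : ActS := by
  intro ψ φ w
  have key : ∀ (w : List Bool) (G : List Bool → ℚ),
      conv w (coeff ψ) G + act_D (coeff ψ) w G = A (coeff ψ) w G := by
    intro w
    induction w with
    | nil => intro G; simp [conv, act_D, A]
    | cons a w ih =>
      intro G
      have h1 := ih (fun s => G (a :: s))
      have h2 : conv (a :: w) (coeff ψ) G =
          conv (a :: w) (coeff ψ) (low G) + conv (a :: w) (coeff ψ) (act_hi G) := by
        rw [← conv_add_right]
        congr 1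
        funext s
        exact (act_low_add_hi G s).symm
      simp only [A, act_D]
      rw [h2, ← h1]
      split_ifs <;> ring
  unfold act
  rw [coeff_add, coeff_mul, act_der, key]

end Pool.Agent.MP_a57f33_nt.FL
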