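import Pool.Agent.Lib.MP_a57f33_nt.FL.Stm

/-!
The `2`-adic estimates of the numbers of the Brown-Zagier relation.
-/

namespace Pool.Agent.MP_a57f33_nt.FL

open Pool.Agent.MP_a57f33_nt

theorem ar1_two : padicNorm 2 (2 : ℚ) = 1 / 2 := by
  have h := padicNorm.padicNorm_p_of_prime (p := 2)
  rw [Nat.cast_ofNat] at h
  rw [h]
  norm_num

theorem ar1_four (r : ℕ) : padicNorm 2 (1 / 4 ^ r : ℚ) = 4 ^ r := by
  induction r with
  | zero => simp
  | succ r ih =>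
    have e : (1 / 4 ^ (r + 1) : ℚ) = 1 / 4 ^ r * (1 / 2 * (1 / 2)) := by
      rw [pow_succ]
      field_simp
      norm_num
    rw [e, padicNorm.mul, ih, padicNorm.mul, padicNorm.div, padicNorm.one, ar1_two]
    norm_num [pow_succ]

theorem ar1_lower (n : ℕ) (hn : n ≠ 0) : (1 : ℚ) ≤ padicNorm 2 (n : ℚ) * n := by
  have h1 : padicNorm 2 (n : ℚ) = 1 / 2 ^ padicValNat 2 n := by
    rw [padicNorm.eq_zpow_of_nonzero (by exact_mod_cast hn), padicValRat.of_nat, zpow_neg,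
      zpow_natCast, one_div]
    norm_num
  have h2 : 2 ^ padicValNat 2 n ≤ n := Nat.le_of_dvd (Nat.pos_of_ne_zero hn) pow_padicValNat_dvd
  have h3 : (2 : ℚ) ^ padicValNat 2 n ≤ n := by exact_mod_cast h2
  rw [h1, div_mul_eq_mul_div, one_mul, le_div_iff₀ (by positivity), one_mul]
  exact h3

theorem ar1_pow (r : ℕ) (hr : 1 ≤ r) : 2 * r < 4 ^ r := by
  induction r, hr using Nat.le_induction with
  | base => norm_num
  | succ r hr ih =>
    rw [pow_succ]
    omega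

theorem ar1_big (r : ℕ) (hr : 1 ≤ r) : 1 < padicNorm 2 ((2 * r : ℕ) : ℚ) * 4 ^ r := by
  have h1 := ar1_lower (2 * r) (by omega)
  have h2 : ((2 * r : ℕ) : ℚ) < 4 ^ r := by exact_mod_cast ar1_pow r hr
  have h3 : 0 < padicNorm 2 ((2 * r : ℕ) : ℚ) := by
    refine lt_of_le_of_ne (padicNorm.nonneg _) (Ne.symm (padicNorm.nonzero ?_))
    exact_mod_cast (by omega : 2 * r ≠ 0)
  exact lt_of_le_of_lt h1 (mul_lt_mul_of_pos_left h2 h3)

theorem ar1_bz0 (k : ℕ) : padicNorm 2 (bz 0 k) =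
    padicNorm 2 ((2 * (k + 1) : ℕ) : ℚ) * 4 ^ (k + 1) := by
  have e : bz 0 k = ((1 - 2 * (k + 1 : ℕ) : ℤ) : ℚ) + ((2 * (k + 1) : ℕ) : ℚ) * (1 / 4 ^ (k + 1)) := by
    unfold bz
    rw [show 2 * (0 + k + 1) = 2 * k + 2 by ring, Nat.choose_self,
      show 2 * 0 + 1 = 1 by norm_num, Nat.choose_one_right, show 0 + k + 1 = k + 1 by ring]
    push_cast
    ring
  have h1 : padicNorm 2 ((1 - 2 * (k + 1 : ℕ) : ℤ) : ℚ) ≤ 1 := padicNorm.of_int _
  have h2 : padicNorm 2 (((2 * (k + 1) : ℕ) : ℚ) * (1 / 4 ^ (k + 1))) =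
      padicNorm 2 ((2 * (k + 1) : ℕ) : ℚ) * 4 ^ (k + 1) := by
    rw [padicNorm.mul, ar1_four]
  have h3 := ar1_big (k + 1) (by omega)
  rw [← h2] at h3 ⊢
  rw [e, padicNorm.add_eq_max_of_ne (ne_of_lt (lt_of_le_of_lt h1 h3)), max_eq_right]
  exact (lt_of_le_of_lt h1 h3).le

theorem ar1_choose (a b : ℕ) : padicNorm 2 (((2 * (a + b + 1)).choose (2 * a + 1) : ℕ) : ℚ) ≤
    padicNorm 2 ((2 * (a + b + 1) : ℕ) : ℚ) := by
  have h := Nat.add_one_mul_choose_eq (2 * (a + b) + 1) (2 * a)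
  have e : 2 * (a + b) + 1 + 1 = 2 * (a + b + 1) := by ring
  rw [e] at h
  have h1 : padicNorm 2 (((2 * (a + b + 1) * (2 * (a + b) + 1).choose (2 * a) : ℕ)) : ℚ) =
      padicNorm 2 (((2 * (a + b + 1)).choose (2 * a + 1) * (2 * a + 1) : ℕ) : ℚ) := by
    rw [h]
  rw [Nat.cast_mul (2 * (a + b + 1)) ((2 * (a + b) + 1).choose (2 * a)), padicNorm.mul,
    Nat.cast_mul ((2 * (a + b + 1)).choose (2 * a + 1)) (2 * a + 1), padicNorm.mul] at h1
  have h2 : padicNorm 2 ((2 * a + 1 : ℕ) : ℚ) = 1 := by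
    rw [padicNorm.nat_eq_one_iff]
    omega
  rw [h2, mul_one] at h1
  rw [← h1]
  have h3 : padicNorm 2 (((2 * (a + b) + 1).choose (2 * a) : ℕ) : ℚ) ≤ 1 := padicNorm.of_nat _
  have h4 := padicNorm.nonneg (p := 2) ((2 * (a + b + 1) : ℕ) : ℚ)
  nlinarith

theorem p_ar1 : Ar1S := by
  intro k
  have hb0 := ar1_bz0 k
  have hbig := ar1_big (k + 1) (by omega)
  refine ⟨by rw [hb0]; exact hbig, ?_⟩
  intro a b hab
  subst hab
  constructor
  · rw [hb0]
    unfold bz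
    refine (padicNorm.sub (p := 2)).trans (max_le ?_ ?_)
    · exact (padicNorm.of_nat _).trans hbig.le
    · rw [padicNorm.mul, mul_comm]
      have h1 : padicNorm 2 (1 - 1 / 4 ^ (a + b + 1) : ℚ) ≤ 4 ^ (a + b + 1) := by
        refine (padicNorm.sub (p := 2)).trans (max_le ?_ ?_)
        · rw [padicNorm.one]
          exact one_le_pow₀ (by norm_num)
        · rw [ar1_four]
      exact mul_le_mul (ar1_choose a b) h1 (padicNorm.nonneg _) (padicNorm.nonneg _)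
  · have e : bz a b - bz b a = (((2 * (a + b + 1)).choose (2 * b + 2) : ℤ) -
        ((2 * (a + b + 1)).choose (2 * a + 2) : ℤ) : ℤ) := by
      unfold bz
      have hc : (2 * (a + b + 1)).choose (2 * b + 1) = (2 * (a + b + 1)).choose (2 * a + 1) :=
        Nat.choose_symm_of_eq_add (by ring)
      rw [add_comm b a, hc]
      push_cast
      ring
    rw [e]
    exact padicNorm.of_int _

end Pool.Agent.MP_a57f33_nt.FL
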