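import Pool.Agent.Lib.MP_a57f33_nt.FL.Stm

/-!
From linear independence to a basis in weight `N`.
-/

namespace Pool.Agent.MP_a57f33_nt.FL

open Pool.Agent.MP_a57f33_nt

lemma bas_length (v : List Bool) : v.length ≤ (hoff v).length := by
  induction v with
  | nil => simp
  | cons x v ih => cases x <;> simp only [hoff, List.length_cons] <;> omega

lemma bas_finite (N : ℕ) : {b : List Bool | (hoff b).length = N}.Finite := by
  refine Set.Finite.subset (List.finite_length_le Bool N) ?_
  intro b hb
  have := bas_length b
  simp only [Set.mem_ofPred_eq] at hb ⊢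
  omega

theorem p_bas : BasS := by
  rintro ⟨q, hq⟩ e hli hv N
  have h1 : LinearIndependent ℚ (fun (i : {i : List ℕ × ℕ // iwt i = N})
      (b : {b : List Bool // (hoff b).length = N}) => e i.1 b.1) := by
    have h : LinearIndependent ℚ (fun i : {i : List ℕ × ℕ // iwt i = N} => e i.1) :=
      hli.comp Subtype.val Subtype.val_injective
    rw [linearIndependent_iff'] at h ⊢
    intro s c hc
    apply h s c
    funext b
    simp only [Finset.sum_apply, Pi.smul_apply, Pi.zero_apply]
    by_cases hb : (hoff b).length = N
    · have := congrFun hc ⟨b, hb⟩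
      simpa only [Finset.sum_apply, Pi.smul_apply, Pi.zero_apply] using this
    · apply Finset.sum_eq_zero
      intro i _
      rw [hv i.1 b (by rw [i.2]; exact hb), smul_zero]
  refine ⟨h1, ?_⟩
  have : Finite {b : List Bool // (hoff b).length = N} := (bas_finite N).to_subtype
  have : Fintype {b : List Bool // (hoff b).length = N} := Fintype.ofFinite _
  let E : {i : List ℕ × ℕ // iwt i = N} ≃ {b : List Bool // (hoff b).length = N} :=
    Equiv.subtypeEquiv q (fun i => by rw [hq])
  have : Fintype {i : List ℕ × ℕ // iwt i = N} := Fintype.ofEquiv _ E.symm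
  apply LinearIndependent.span_eq_top_of_card_eq_finrank' h1
  rw [Module.finrank_fintype_fun_eq_card]
  exact Fintype.card_congr E

end Pool.Agent.MP_a57f33_nt.FL
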