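import Pool.Agent.Lib.MP_a57f33_nt.FL.Stm

/-!
# MP_a57f33_nt, FL, piece end: the coefficient of `(x₀x₁)^(k+1) x₀`
-/

namespace Pool.Agent.MP_a57f33_nt.FL

open Pool.Agent.MP_a57f33_nt

private theorem end_ins (n : ℕ) : ∀ c : List Bool → ℚ, ins false (hoff (rep n)) c =
    2 * ∑ i ∈ Finset.range n, c (hoff (rep i ++ true :: rep (n - 1 - i))) +
      c (hoff (rep n) ++ [false]) := by
  induction n with
  | zero =>
    intro c
    show c [false] = 2 * ∑ i ∈ Finset.range 0, _ + c ([] ++ [false])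
    rw [Finset.sum_range_zero, mul_zero, zero_add, List.nil_append]
  | succ n ih =>
    intro c
    have h1 : hoff (rep (n + 1)) = false :: true :: hoff (rep n) := by
      unfold rep
      rw [List.replicate_succ]
      rfl
    have h2 : ins false (false :: true :: hoff (rep n)) c =
        c (false :: false :: true :: hoff (rep n)) + (c (false :: false :: true :: hoff (rep n)) +
          ins false (hoff (rep n)) (fun t => c (false :: true :: t))) := rfl
    rw [h1, h2, ih, Finset.sum_range_succ']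
    have h3 : c (hoff (rep 0 ++ true :: rep (n + 1 - 1 - 0))) =
        c (false :: false :: true :: hoff (rep n)) := by
      rw [Nat.sub_zero, Nat.add_sub_cancel]
      rfl
    have h4 : ∀ i ∈ Finset.range n, c (hoff (rep (i + 1) ++ true :: rep (n + 1 - 1 - (i + 1)))) =
        c (false :: true :: hoff (rep i ++ true :: rep (n - 1 - i))) := by
      intro i _
      have h5 : n + 1 - 1 - (i + 1) = n - 1 - i := by omega
      rw [h5]
      unfold rep
      rw [List.replicate_succ]
      rfl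
    rw [h3, Finset.sum_congr rfl h4]
    simp only [List.cons_append]
    ring

private theorem end_split (f : ℕ → ℚ) (n : ℕ) :
    ∑ i ∈ Finset.range (2 * n), f i = ∑ j ∈ Finset.range n, (f (2 * j) + f (2 * j + 1)) := by
  induction n with
  | zero => simp
  | succ n ih =>
    rw [show 2 * (n + 1) = 2 * n + 1 + 1 from by ring, Finset.sum_range_succ,
      Finset.sum_range_succ, ih, Finset.sum_range_succ]
    ring

private theorem end_choose (k : ℕ) :
    ∑ j ∈ Finset.range (k + 1), ((2 * (k + 1)).choose (2 * j + 1) : ℚ) = 2 ^ (2 * k + 1) ∧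
    ∑ j ∈ Finset.range (k + 1), ((2 * (k + 1)).choose (2 * j + 2) : ℚ) = 2 ^ (2 * k + 1) - 1 := by
  have h1 : ∑ m ∈ Finset.range (2 * (k + 1) + 1), ((2 * (k + 1)).choose m : ℚ) =
      2 ^ (2 * (k + 1)) := by
    exact_mod_cast Nat.sum_range_choose (2 * (k + 1))
  have h2 : ∑ m ∈ Finset.range (2 * (k + 1) + 1), (-1 : ℚ) ^ m * ((2 * (k + 1)).choose m : ℚ) =
      0 := by
    have h := Int.alternating_sum_range_choose (n := 2 * (k + 1))
    rw [if_neg (by omega)] at h
    exact_mod_cast congrArg (Int.cast : ℤ → ℚ) h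
  rw [Finset.sum_range_succ, end_split] at h1 h2
  have e1 : ∀ j, (-1 : ℚ) ^ (2 * j) = 1 := fun j => by rw [pow_mul]; norm_num
  have e2 : ∀ j, (-1 : ℚ) ^ (2 * j + 1) = -1 := fun j => by rw [pow_succ, e1]; norm_num
  have h3 : ∑ j ∈ Finset.range (k + 1), ((-1 : ℚ) ^ (2 * j) * ((2 * (k + 1)).choose (2 * j) : ℚ) +
      (-1 : ℚ) ^ (2 * j + 1) * ((2 * (k + 1)).choose (2 * j + 1) : ℚ)) =
      ∑ j ∈ Finset.range (k + 1), ((2 * (k + 1)).choose (2 * j) : ℚ) -
      ∑ j ∈ Finset.range (k + 1), ((2 * (k + 1)).choose (2 * j + 1) : ℚ) := by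
    rw [← Finset.sum_sub_distrib]
    apply Finset.sum_congr rfl
    intro j _
    rw [e1, e2]; ring
  rw [h3, e1, Nat.choose_self] at h2
  rw [Finset.sum_add_distrib, Nat.choose_self] at h1
  have h4 : ∑ j ∈ Finset.range (k + 1), ((2 * (k + 1)).choose (2 * j + 2) : ℚ) + 1 =
      ∑ j ∈ Finset.range (k + 1), ((2 * (k + 1)).choose (2 * j) : ℚ) + 1 := by
    have h5 := Finset.sum_range_succ' (fun j => ((2 * (k + 1)).choose (2 * j) : ℚ)) (k + 1)
    have h6 := Finset.sum_range_succ (fun j => ((2 * (k + 1)).choose (2 * j) : ℚ)) (k + 1)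
    simp only [Nat.choose_self, mul_zero, Nat.choose_zero_right] at h5 h6
    rw [h6] at h5
    have h7 : ∀ j, 2 * (j + 1) = 2 * j + 2 := fun j => by ring
    simp only [h7] at h5
    have h8 : 2 * (k + 1) = 2 * k + 2 := by ring
    rw [h8]
    push_cast at h5 ⊢
    linarith
  have h9 : (2 : ℚ) ^ (2 * (k + 1)) = 2 * 2 ^ (2 * k + 1) := by
    rw [show 2 * (k + 1) = 2 * k + 1 + 1 from by ring, pow_succ]; ring
  rw [h9] at h1
  push_cast at h1 h2
  constructor
  · linarith
  · linarith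

private theorem end_bz (k : ℕ) : ∑ i ∈ Finset.range (k + 1), bz i (k - i) = -1 / 2 := by
  obtain ⟨h1, h2⟩ := end_choose k
  have e : ∀ i ∈ Finset.range (k + 1), bz i (k - i) =
      ((2 * (k + 1)).choose (2 * (k + 1 - 1 - i) + 2) : ℚ) -
        (1 - 1 / 4 ^ (k + 1)) * ((2 * (k + 1)).choose (2 * i + 1) : ℚ) := by
    intro i hi
    have hi' : i ≤ k := Nat.lt_succ_iff.1 (Finset.mem_range.1 hi)
    unfold bz
    rw [show i + (k - i) + 1 = k + 1 from by omega, Nat.add_sub_cancel]
  rw [Finset.sum_congr rfl e, Finset.sum_sub_distrib, ← Finset.mul_sum, h1,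
    Finset.sum_range_reflect (fun j => ((2 * (k + 1)).choose (2 * j + 2) : ℚ)) (k + 1), h2]
  have h3 : (4 : ℚ) ^ (k + 1) = 2 * 2 ^ (2 * k + 1) := by
    rw [show (4 : ℚ) = 2 ^ 2 from by norm_num, ← pow_mul,
      show 2 * (k + 1) = 2 * k + 1 + 1 from by ring, pow_succ]
    ring
  rw [h3]
  have h4 : (2 : ℚ) ^ (2 * k + 1) ≠ 0 := by positivity
  field_simp
  ring

theorem p_end : EndS := by
  intro ψ hψ k κ h
  have h0 : hoff (rep (k + 1)) ≠ [] := by
    unfold rep
    rw [List.replicate_succ]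
    exact List.cons_ne_nil _ _
  have h1 := (lie_ins hψ).2 false (hoff (rep (k + 1))) h0
  rw [end_ins] at h1
  have h2 : ∑ i ∈ Finset.range (k + 1), coeff ψ (hoff (rep i ++ true :: rep (k + 1 - 1 - i))) =
      2 * (-1) ^ (k + 1) * κ * ∑ i ∈ Finset.range (k + 1), bz i (k - i) := by
    rw [Finset.mul_sum]
    apply Finset.sum_congr rfl
    intro i hi
    have hi' : i ≤ k := Nat.lt_succ_iff.1 (Finset.mem_range.1 hi)
    rw [Nat.add_sub_cancel, h i (k - i) (by omega)]
    ring
  rw [h2, end_bz] at h1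
  linarith

end Pool.Agent.MP_a57f33_nt.FL
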