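import Pool.Agent.Lib.MP_a57f33_nt.FL.Stm

/-!
The bijection of the index sets.
-/

namespace Pool.Agent.MP_a57f33_nt.FL

open Pool.Agent.MP_a57f33_nt

/-- `([k₁, …, k_m], j) ↦ y₂^{k₁} y₃ ⋯ y₂^{k_m} y₃ y₂^j`. -/
def eqv_f : List ℕ → ℕ → List Bool
  | [], j => rep j
  | k :: l, j => rep k ++ true :: eqv_f l j

/-- The effect of a letter `y₂` in front. -/
def eqv_s : List ℕ × ℕ → List ℕ × ℕ
  | ([], j) => ([], j + 1)
  | (k :: l, j) => ((k + 1) :: l, j)

/-- The inverse. -/
def eqv_g : List Bool → List ℕ × ℕ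
  | [] => ([], 0)
  | true :: b => (0 :: (eqv_g b).1, (eqv_g b).2)
  | false :: b => eqv_s (eqv_g b)

lemma eqv_gf (l : List ℕ) (j : ℕ) : eqv_g (eqv_f l j) = (l, j) := by
  induction l with
  | nil =>
    simp only [eqv_f]
    induction j with
    | zero => rfl
    | succ j ih =>
      rw [rep, List.replicate_succ]
      simp only [eqv_g]
      rw [ih]
      rfl
  | cons k l ih =>
    simp only [eqv_f]
    induction k with
    | zero => simp [eqv_g, ih]
    | succ k ihk =>
      rw [rep, List.replicate_succ]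
      simp only [List.cons_append, eqv_g]
      rw [ihk]
      rfl

lemma eqv_fs (i : List ℕ × ℕ) : eqv_f (eqv_s i).1 (eqv_s i).2 = false :: eqv_f i.1 i.2 := by
  rcases i with ⟨l, j⟩
  cases l with
  | nil => simp [eqv_s, eqv_f, rep, List.replicate_succ]
  | cons k l => simp [eqv_s, eqv_f, rep, List.replicate_succ]

lemma eqv_fg (b : List Bool) : eqv_f (eqv_g b).1 (eqv_g b).2 = b := by
  induction b with
  | nil => rfl
  | cons x b ih =>
    cases x with
    | false =>
      simp only [eqv_g]
      rw [eqv_fs, ih]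
    | true =>
      simp only [eqv_g, eqv_f]
      rw [ih]
      rfl

lemma eqv_hoff_append (u v : List Bool) : hoff (u ++ v) = hoff u ++ hoff v := by
  induction u with
  | nil => rfl
  | cons x u ih => cases x <;> simp [hoff, ih]

lemma eqv_hoff_rep (j : ℕ) : (hoff (rep j)).length = 2 * j := by
  induction j with
  | zero => rfl
  | succ j ih =>
    rw [rep, List.replicate_succ]
    simp only [hoff, List.length_cons]
    rw [ih]
    ring

theorem p_eqv : EqvS := by
  refine ⟨⟨fun i => eqv_f i.1 i.2, eqv_g, fun i => eqv_gf i.1 i.2, eqv_fg⟩, ?_⟩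
  rintro ⟨l, j⟩
  change (hoff (eqv_f l j)).length = iwt (l, j)
  induction l with
  | nil => simp [eqv_f, iwt, eqv_hoff_rep]
  | cons k l ih =>
    simp only [eqv_f]
    rw [eqv_hoff_append, List.length_append, eqv_hoff_rep]
    simp only [hoff, List.length_cons]
    rw [ih]
    simp only [iwt, List.map_cons, List.sum_cons]
    ring

end Pool.Agent.MP_a57f33_nt.FL
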