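import Pool.Agent.Lib.MP_a57f33_nt.FL.Stm

/-!
The `2`-adic estimate of the small part of the action.
-/

namespace Pool.Agent.MP_a57f33_nt.FL

open Pool.Agent.MP_a57f33_nt

theorem est_conv (B : ℚ) (b : List Bool) : ∀ (f g : List Bool → ℚ),
    (∀ v s, v ++ s = b → padicNorm 2 (f v * g s) < B) → padicNorm 2 (conv b f g) < B := by
  induction b with
  | nil =>
    intro f g h
    exact h [] [] rfl
  | cons x b ih =>
    intro f g h
    have h1 : padicNorm 2 (f [] * g (x :: b)) < B := h [] (x :: b) rfl
    have h2 : padicNorm 2 (conv b (fun t => f (x :: t)) g) < B :=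
      ih (fun t => f (x :: t)) g (fun v s e => h (x :: v) s (by rw [List.cons_append, e]))
    exact lt_of_le_of_lt (padicNorm.nonarchimedean (p := 2)) (max_lt h1 h2)

theorem est_len (v : List Bool) : (hoff v).length = 2 * v.length + lev v := by
  induction v with
  | nil => rfl
  | cons x v ih =>
    cases x
    · have e : lev (false :: v) = lev v := by simp [lev]
      rw [e]
      simp only [hoff, List.length_cons, ih]
      omega
    · have e : lev (true :: v) = lev v + 1 := by simp [lev]
      rw [e]
      simp only [hoff, List.length_cons, ih]
      omega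

theorem est_lev0 (v : List Bool) (h : lev v = 0) : v = rep v.length := by
  unfold lev at h
  rw [List.count_eq_zero] at h
  rw [List.eq_replicate_iff]
  refine ⟨rfl, fun b hb => ?_⟩
  cases b
  · rfl
  · exact absurd hb h

theorem est_lev1 (v : List Bool) (h : lev v = 1) : ∃ a b, v = rep a ++ true :: rep b := by
  induction v with
  | nil => exact absurd h (by decide)
  | cons x v ih =>
    cases x
    · have e : lev (false :: v) = lev v := by simp [lev]
      rw [e] at h
      obtain ⟨a, b, hab⟩ := ih h
      refine ⟨a + 1, b, ?_⟩
      rw [hab]
      rfl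
    · have e : lev (true :: v) = lev v + 1 := by simp [lev]
      rw [e] at h
      refine ⟨0, v.length, ?_⟩
      rw [← est_lev0 v (by omega)]
      rfl

theorem est_append (v s : List Bool) : lev (v ++ s) = lev v + lev s := by
  unfold lev
  rw [List.count_append]

theorem est_reverse (v : List Bool) : lev v.reverse = lev v := by
  unfold lev
  rw [List.count_reverse]

theorem est_cons (x : Bool) (v : List Bool) : lev (x :: v) = (if x then 1 else 0) + lev v := by
  cases x <;> simp [lev, add_comm]

theorem est_mul (x y L B : ℚ) (hB : 0 < B) (hx : padicNorm 2 x < padicNorm 2 L)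
    (hy : padicNorm 2 L * padicNorm 2 y ≤ B) : padicNorm 2 (x * y) < B := by
  rw [padicNorm.mul]
  rcases eq_or_ne y 0 with rfl | hy0
  · rw [padicNorm.zero, mul_zero]
    exact hB
  · have hpos : 0 < padicNorm 2 y := lt_of_le_of_ne (padicNorm.nonneg y) (padicNorm.nonzero hy0).symm
    exact lt_of_lt_of_le (mul_lt_mul_of_pos_right hx hpos) hy

theorem est_zero (x y B : ℚ) (hB : 0 < B) (h : x = 0 ∨ y = 0) : padicNorm 2 (x * y) < B := by
  have : x * y = 0 := by
    rcases h with h | h <;> simp [h]
  rw [this, padicNorm.zero]
  exact hB

/-- the terms with one block `y₃` in `v` -/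
theorem est_one (k : ℕ) (F : List Bool → ℚ) (hF : Good k F) (B : ℚ) (hB : 0 < B)
    (w v s : List Bool) (g : List Bool → ℚ) (e : lev v + lev s = lev w)
    (h0 : ∀ u : List Bool, lev u + 1 < lev w → g u = 0)
    (h1 : ∀ u : List Bool, lev u + 1 = lev w → padicNorm 2 (lam k F) * padicNorm 2 (g u) ≤ B) :
    padicNorm 2 ((F (hoff v) - F (hoff v.reverse)) * g s) < B := by
  by_cases hl : (hoff v).length = 2 * k + 3
  · rw [est_len] at hl
    rcases Nat.lt_or_ge (lev v) 2 with h2 | h2
    · have h3 : lev v = 1 := by omega
      obtain ⟨a, b, rfl⟩ := est_lev1 v h3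
      have hab : a + b = k := by
        simp only [List.length_append, List.length_cons, List.length_replicate] at hl
        omega
      have hr : (rep a ++ true :: rep b).reverse = rep b ++ true :: rep a := by
        simp [List.reverse_append, List.reverse_cons, List.reverse_replicate, List.append_assoc]
      rw [hr]
      exact est_mul _ _ (lam k F) B hB (hF.lt a b hab) (h1 s (by omega))
    · exact est_zero _ _ B hB (Or.inr (h0 s (by omega)))
  · have hl' : (hoff v.reverse).length ≠ 2 * k + 3 := by
      rw [est_len, List.length_reverse, est_reverse, ← est_len]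
      exact hl
    apply est_zero _ _ B hB
    left
    rw [hF.hom _ hl, hF.hom _ hl', sub_zero]

/-- the terms without block `y₃` in `v` -/
theorem est_two (k : ℕ) (F : List Bool → ℚ) (hF : Good k F) (B : ℚ) (hB : 0 < B)
    (w v s : List Bool) (g : List Bool → ℚ) (e : lev v + lev s + 1 = lev w)
    (h0 : ∀ u : List Bool, lev u + 1 < lev w → g u = 0)
    (h1 : ∀ u : List Bool, lev u + 1 = lev w → padicNorm 2 (lam k F) * padicNorm 2 (g u) ≤ B) :
    padicNorm 2 (F (hoff v ++ [false]) * g s) < B := by
  by_cases hl : (hoff v ++ [false]).length = 2 * k + 3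
  · rw [List.length_append, est_len, List.length_singleton] at hl
    rcases Nat.eq_zero_or_pos (lev v) with h2 | h2
    · have h3 := est_lev0 v h2
      have h4 : v.length = k + 1 := by omega
      rw [h4] at h3
      rw [h3]
      exact est_mul _ _ (lam k F) B hB hF.lt' (h1 s (by omega))
    · exact est_zero _ _ B hB (Or.inr (h0 s (by omega)))
  · exact est_zero _ _ B hB (Or.inl (hF.hom _ hl))

theorem p_est : EstS := by
  intro k F hF B hB b
  induction b with
  | nil =>
    intro g _ _
    have e : R F [] g = 0 := rfl
    rw [e, padicNorm.zero]
    exact hB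
  | cons x b ih =>
    intro g h0 h1
    have e : R F (x :: b) g = conv (x :: b) (fun v => F (hoff v) - F (hoff v.reverse)) g
      + conv (x :: b) (fun v => F (hoff v ++ [false])) (up g)
      - (if x then conv b (fun v => F (hoff v.reverse ++ [false])) (fun s => g (false :: s)) else 0)
      + R F b (fun s => g (x :: s)) := rfl
    have t1 : padicNorm 2 (conv (x :: b) (fun v => F (hoff v) - F (hoff v.reverse)) g) < B := by
      apply est_conv
      intro v s hv
      exact est_one k F hF B hB (x :: b) v s g (by rw [← hv, est_append]) h0 h1
    have t2 : padicNorm 2 (conv (x :: b) (fun v => F (hoff v ++ [false])) (up g)) < B := by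
      apply est_conv
      intro v s hv
      match s with
      | [] => exact est_zero _ _ B hB (Or.inr rfl)
      | false :: s => exact est_zero _ _ B hB (Or.inr rfl)
      | true :: s =>
        exact est_two k F hF B hB (x :: b) v (false :: s) g (by
          rw [← hv, est_append, est_cons, est_cons]
          simp only [if_true, Bool.false_eq_true, if_false]
          omega) h0 h1
    have t3 : padicNorm 2 (if x then conv b (fun v => F (hoff v.reverse ++ [false]))
        (fun s => g (false :: s)) else 0) < B := by
      cases x
      · simp only [Bool.false_eq_true, if_false, padicNorm.zero]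
        exact hB
      · rw [if_pos rfl]
        apply est_conv
        intro v s hv
        exact est_two k F hF B hB (true :: b) v.reverse (false :: s) g (by
          rw [← hv, est_cons, est_cons, est_append, est_reverse]
          simp only [if_true, Bool.false_eq_true, if_false]
          omega) h0 h1
    have t4 : padicNorm 2 (R F b (fun s => g (x :: s))) < B := by
      apply ih
      · intro u hu
        apply h0
        rw [est_cons, est_cons]
        omega
      · intro u hu
        apply h1
        rw [est_cons, est_cons]
        omega
    rw [e]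
    refine lt_of_le_of_lt (padicNorm.nonarchimedean (p := 2)) (max_lt ?_ t4)
    refine lt_of_le_of_lt (padicNorm.sub (p := 2)) (max_lt ?_ t3)
    exact lt_of_le_of_lt (padicNorm.nonarchimedean (p := 2)) (max_lt t1 t2)

end Pool.Agent.MP_a57f33_nt.FL
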