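import Pool.Agent.Lib.MP_a57f33_nt.FL.Stm

/-!
Free lifts in `dm₀`, piece fre: the homomorphism from the free Lie algebra.
-/

namespace Pool.Agent.MP_a57f33_nt.FL

open Pool.Agent.MP_a57f33_nt

/-- `S_ψ` as a linear map. -/
noncomputable def fre_actL (ψ : QX) : QX →ₗ[ℚ] QX := LinearMap.mulLeft ℚ ψ + derL ψ

lemma fre_actL_apply (ψ φ : QX) : fre_actL ψ φ = act ψ φ := rfl

lemma fre_der_add (a b φ : QX) : der (a + b) φ = der a φ + der b φ := by
  have h : derL (a + b) = derL a + derL b := by
    apply linear_ext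
    intro w
    induction w with
    | nil => simp only [word_nil, LinearMap.add_apply, derL_apply, der_one, add_zero]
    | cons x w ih =>
      simp only [LinearMap.add_apply, derL_apply] at ih
      simp only [word_cons, LinearMap.add_apply, derL_apply, der_mul, ih]
      cases x with
      | false => simp only [der_false]; noncomm_ring
      | true => simp only [der_true]; noncomm_ring
  exact LinearMap.congr_fun h φ

lemma fre_der_smul (r : ℚ) (a φ : QX) : der (r • a) φ = r • der a φ := by
  have h : derL (r • a) = r • derL a := by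
    apply linear_ext
    intro w
    induction w with
    | nil => simp only [word_nil, LinearMap.smul_apply, derL_apply, der_one, smul_zero]
    | cons x w ih =>
      simp only [LinearMap.smul_apply, derL_apply] at ih
      simp only [word_cons, LinearMap.smul_apply, derL_apply, der_mul, ih]
      cases x with
      | false => simp only [der_false, zero_mul, zero_add, mul_smul_comm]
      | true =>
        simp only [der_true, mul_smul_comm, smul_mul_assoc, smul_add, smul_sub, sub_mul]
  exact LinearMap.congr_fun h φ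

lemma fre_actL_add (a b : QX) : fre_actL (a + b) = fre_actL a + fre_actL b := by
  ext φ
  simp only [fre_actL_apply, LinearMap.add_apply, act, fre_der_add, add_mul]
  abel

lemma fre_actL_smul (r : ℚ) (a : QX) : fre_actL (r • a) = r • fre_actL a := by
  ext φ
  simp only [fre_actL_apply, LinearMap.smul_apply, act, fre_der_smul, smul_mul_assoc, smul_add]

lemma fre_actL_zero : fre_actL 0 = 0 := by
  have h := fre_actL_smul 0 0
  rwa [zero_smul, zero_smul] at h

lemma fre_act_one (a : QX) : fre_actL a 1 = a := by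
  rw [fre_actL_apply, act, der_one, mul_one, add_zero]

/-- The action of the free associative algebra. -/
noncomputable def fre_ev (ψ : ℕ → QX) : FreeAlgebra ℚ ℕ →ₐ[ℚ] Module.End ℚ QX :=
  FreeAlgebra.lift ℚ (fun k => fre_actL (ψ k))

lemma fre_ev_iota (ψ : ℕ → QX) (k : ℕ) : fre_ev ψ (FreeAlgebra.ι ℚ k) = fre_actL (ψ k) := by
  rw [fre_ev, FreeAlgebra.lift_ι_apply]

lemma fre_ev_word (ψ : ℕ → QX) (l : List ℕ) : fre_ev ψ (word l) 1 = elt ψ l 0 := by
  induction l with
  | nil => rw [word_nil, map_one (fre_ev ψ)]; simp [elt, hoff]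
  | cons k l ih => rw [word_cons, map_mul, Module.End.mul_apply, ih, fre_ev_iota]; rfl

/-- `P ↦ ev P 1` as a linear map. -/
noncomputable def fre_Phi (ψ : ℕ → QX) : FreeAlgebra ℚ ℕ →ₗ[ℚ] QX :=
  (LinearMap.applyₗ (1 : QX)).comp (fre_ev ψ).toLinearMap

lemma fre_Phi_apply (ψ : ℕ → QX) (P : FreeAlgebra ℚ ℕ) : fre_Phi ψ P = fre_ev ψ P 1 := rfl

lemma fre_Phi_inj (ψ : ℕ → QX) (h : LinearIndependent ℚ (fun l : List ℕ => elt ψ l 0)) :
    Function.Injective (fre_Phi ψ) := by
  rw [injective_iff_map_eq_zero]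
  intro P hP
  have h1 : LinearIndependent ℚ (fun w : FreeMonoid ℕ =>
      fre_Phi ψ (FreeAlgebra.basisFreeMonoid ℚ ℕ w)) := by
    have h2 : (fun w : FreeMonoid ℕ => fre_Phi ψ (FreeAlgebra.basisFreeMonoid ℚ ℕ w)) =
        (fun l : List ℕ => elt ψ l 0) ∘ FreeMonoid.toList := by
      funext w
      have h3 := basis_apply (X := ℕ) w.toList
      rw [FreeMonoid.ofList_toList] at h3
      rw [h3, fre_Phi_apply, fre_ev_word]
      rfl
    rw [h2]
    exact h.comp _ FreeMonoid.toList.injective
  rw [linearIndependent_iff] at h1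
  have h4 := h1 ((FreeAlgebra.basisFreeMonoid ℚ ℕ).repr P) (by
    have h5 := (FreeAlgebra.basisFreeMonoid ℚ ℕ).linearCombination_repr P
    have h6 := congrArg (fre_Phi ψ) h5
    rw [hP, Finsupp.linearCombination_apply, map_finsuppSum] at h6
    rw [Finsupp.linearCombination_apply]
    simpa using h6)
  exact (FreeAlgebra.basisFreeMonoid ℚ ℕ).repr.map_eq_zero_iff.1 h4

section

attribute [local instance 100] LieRing.ofAssociativeRing

lemma fre_key (hl : LieS) (ψ : ℕ → QX) (P : FreeAlgebra ℚ ℕ) (hP : P ∈ LieN) :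
    fre_ev ψ P = fre_actL (fre_ev ψ P 1) := by
  have hlie : ∀ a b : QX, fre_actL a * fre_actL b - fre_actL b * fre_actL a =
      fre_actL (ihara a b) := fun a b => LinearMap.ext fun φ => hl a b φ
  refine LieSubalgebra.lieSpan_induction ℚ (p := fun P _ =>
    fre_ev ψ P = fre_actL (fre_ev ψ P 1)) ?_ ?_ ?_ ?_ ?_ hP
  · rintro _ ⟨k, rfl⟩
    rw [fre_ev_iota, fre_act_one]
  · rw [map_zero, LinearMap.zero_apply, fre_actL_zero]
  · intro P Q _ _ hP hQ
    rw [map_add, LinearMap.add_apply, fre_actL_add, ← hP, ← hQ]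
  · intro r P _ hP
    rw [map_smul, LinearMap.smul_apply, fre_actL_smul, ← hP]
  · intro P Q _ _ hP hQ
    rw [LieRing.of_associative_ring_bracket, map_sub, map_mul, map_mul]
    generalize fre_ev ψ P 1 = a at hP
    generalize fre_ev ψ Q 1 = b at hQ
    rw [hP, hQ, hlie, fre_act_one]

theorem p_fre : FreS := by
  intro hl ψ h
  have hb : ∀ a b : QX, fre_actL a * fre_actL b - fre_actL b * fre_actL a =
      fre_actL (ihara a b) := fun a b => LinearMap.ext fun φ => hl a b φ
  refine ⟨(fre_Phi ψ).comp LieN.toSubmodule.subtype,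
    (fre_Phi_inj ψ h).comp Subtype.val_injective, ?_, ?_⟩
  · intro k hk
    change fre_ev ψ (FreeAlgebra.ι ℚ k) 1 = ψ k
    rw [fre_ev_iota, fre_act_one]
  · rintro ⟨P, hP⟩ ⟨Q, hQ⟩
    change fre_ev ψ ⁅P, Q⁆ 1 = ihara (fre_ev ψ P 1) (fre_ev ψ Q 1)
    have h1 := fre_key hl ψ P hP
    have h2 := fre_key hl ψ Q hQ
    rw [LieRing.of_associative_ring_bracket, map_sub, map_mul, map_mul]
    generalize fre_ev ψ P 1 = a at h1 ⊢
    generalize fre_ev ψ Q 1 = b at h2 ⊢
    rw [h1, h2, hb, fre_act_one]

end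

end Pool.Agent.MP_a57f33_nt.FL
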