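import Pool.Agent.Lib.MP_a57f33_nt.FL.Stm

/-!
# MP_a57f33_nt, FL, piece frm: the action on words in the blocks
-/

namespace Pool.Agent.MP_a57f33_nt.FL

open Pool.Agent.MP_a57f33_nt

/-- the zeros before the last letter of a block -/
private def frm_z : Bool → List Bool
  | false => [false]
  | true => [false, false]

private theorem frm_low_t (G : List Bool → ℚ) (s : List Bool) : low G (true :: s) = 0 := rfl
private theorem frm_low_f (G : List Bool → ℚ) (s : List Bool) :
    low G (false :: s) = G (false :: s) := rfl
private theorem frm_low_n (G : List Bool → ℚ) : low G [] = G [] := rfl
private theorem frm_up_t (g : List Bool → ℚ) (s : List Bool) :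
    up g (true :: s) = g (false :: s) := rfl
private theorem frm_up_f (g : List Bool → ℚ) (s : List Bool) : up g (false :: s) = 0 := rfl
private theorem frm_up_n (g : List Bool → ℚ) : up g [] = 0 := rfl

private theorem frm_happ (m n : List Bool) : hoff (m ++ n) = hoff m ++ hoff n := by
  induction m with
  | nil => rfl
  | cons y m ih =>
    cases y
    · show false :: true :: hoff (m ++ n) = _
      rw [ih]; rfl
    · show false :: false :: true :: hoff (m ++ n) = _
      rw [ih]; rfl

private theorem frm_hcons (y : Bool) (m : List Bool) :
    hoff (y :: m) = frm_z y ++ true :: hoff m := by
  cases y <;> rfl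

private theorem frm_zrev (y : Bool) : (frm_z y).reverse = frm_z y := by
  cases y <;> rfl

private theorem frm_rev (m : List Bool) : (true :: hoff m).reverse = true :: hoff m.reverse := by
  induction m with
  | nil => rfl
  | cons y m ih =>
    rw [List.reverse_cons, frm_hcons, List.reverse_append, ih, frm_zrev, List.reverse_cons,
      frm_happ, frm_hcons]
    show (true :: hoff m.reverse ++ frm_z y) ++ [true] =
      true :: (hoff m.reverse ++ (frm_z y ++ true :: hoff []))
    simp [hoff]

/-- (ii) -/
private theorem frm_rev2 (v : List Bool) (y : Bool) :
    (true :: hoff v ++ frm_z y).reverse = hoff (v ++ [y]).reverse := by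
  rw [List.reverse_append, frm_rev, frm_zrev, List.reverse_append, List.reverse_singleton,
    List.singleton_append, frm_hcons]

/-- (i) -/
private theorem frm_one (G : List Bool → ℚ) (b : List Bool) : ∀ F : List Bool → ℚ,
    conv (hoff b) F (low G) = conv b (fun v => F (hoff v)) (fun s => G (hoff s)) +
      conv b (fun v => F (hoff v ++ [false])) (up (fun s => G (hoff s))) := by
  induction b with
  | nil =>
    intro F
    simp only [conv, hoff, frm_low_n, frm_up_n]
    ring
  | cons y b ih =>
    intro F
    cases y
    · have h := ih (fun t => F (false :: true :: t))
      simp only [conv, hoff, frm_low_t, frm_low_f, frm_up_f]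
      rw [h]
      simp only [List.cons_append]
      ring
    · have h := ih (fun t => F (false :: false :: true :: t))
      simp only [conv, hoff, frm_low_t, frm_low_f, frm_up_t, List.nil_append]
      rw [h]
      simp only [List.cons_append]
      ring

/-- (iii) -/
private theorem frm_three (H : List Bool → ℚ) (hn : H [] = 0)
    (hf : ∀ s, H (false :: s) = 0) (b : List Bool) : ∀ P Q : List Bool → ℚ,
    (∀ v y, P (hoff v ++ frm_z y) = Q (v ++ [y])) →
    conv (hoff b) P H = conv b Q (fun s => H (true :: hoff s)) - Q [] * H (true :: hoff b) := by
  induction b with
  | nil =>
    intro P Q _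
    simp only [conv, hoff, hn]
    ring
  | cons y b ih =>
    intro P Q hPQ
    cases y
    · have h := ih (fun t => P (false :: true :: t)) (fun v => Q (false :: v))
        (fun v z => hPQ (false :: v) z)
      have h0 : P [false] = Q [false] := hPQ [] false
      simp only [conv, hoff, hf]
      rw [h, h0]
      ring
    · have h := ih (fun t => P (false :: false :: true :: t)) (fun v => Q (true :: v))
        (fun v z => hPQ (true :: v) z)
      have h0 : P [false, false] = Q [true] := hPQ [] true
      simp only [conv, hoff, hf]
      rw [h, h0]
      ring

/-- (iv), first part -/
private theorem frm_four (F : List Bool → ℚ) (hF : ∀ w : List Bool, F w.reverse = F w)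
    (H : List Bool → ℚ) (hn : H [] = 0) (hf : ∀ s, H (false :: s) = 0) (b : List Bool) :
    conv (true :: hoff b) F H =
      conv b (fun v => F (hoff v.reverse)) (fun s => H (true :: hoff s)) := by
  have h := frm_three H hn hf b (fun t => F (true :: t)) (fun v => F (hoff v.reverse))
    (fun v y => by
      show F (true :: (hoff v ++ frm_z y)) = F (hoff (v ++ [y]).reverse)
      rw [← frm_rev2, hF]
      rfl)
  show F [] * H (true :: hoff b) + conv (hoff b) (fun t => F (true :: t)) H = _
  rw [h]
  show F [] * H (true :: hoff b) + (_ - F [] * H (true :: hoff b)) = _
  ring

/-- (iv), second part -/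
private theorem frm_five (F : List Bool → ℚ) (hF : ∀ w : List Bool, F w.reverse = F w)
    (H : List Bool → ℚ) (hn : H [] = 0) (hf : ∀ s, H (false :: s) = 0) (b : List Bool) :
    conv (false :: true :: hoff b) F H =
      conv b (fun v => F (hoff v.reverse ++ [false])) (fun s => H (true :: hoff s)) := by
  have h := frm_three H hn hf b (fun t => F (false :: true :: t))
    (fun v => F (hoff v.reverse ++ [false]))
    (fun v y => by
      show F (false :: (true :: hoff v ++ frm_z y)) = F (hoff (v ++ [y]).reverse ++ [false])
      rw [← frm_rev2, ← hF (false :: (true :: hoff v ++ frm_z y)), List.reverse_cons])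
  show F [] * H (false :: true :: hoff b) + (F [false] * H (true :: hoff b) +
    conv (hoff b) (fun t => F (false :: true :: t)) H) = _
  rw [h, hf]
  show F [] * 0 + (F [false] * H (true :: hoff b) + (_ - F [false] * H (true :: hoff b))) = _
  ring

private theorem frm_sub (w : List Bool) : ∀ f g g' : List Bool → ℚ,
    conv w f (fun t => g t - g' t) = conv w f g - conv w f g' := by
  induction w with
  | nil => intro f g g'; simp only [conv]; ring
  | cons b w ih => intro f g g'; simp only [conv, ih]; ring

private theorem frm_subl (w : List Bool) : ∀ f f' g : List Bool → ℚ,
    conv w (fun t => f t - f' t) g = conv w f g - conv w f' g := by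
  induction w with
  | nil => intro f g g'; simp only [conv]; ring
  | cons b w ih => intro f g g'; simp only [conv, ih]; ring

theorem p_frm : FrmS := by
  intro F hF b
  induction b with
  | nil =>
    intro G
    show F [] * G [] = conv [] _ _ + R F [] _
    simp [conv, R, hoff]
  | cons y b ih =>
    intro G
    cases y
    · have hi := ih (fun s => G (false :: true :: s))
      have h1 := frm_one G (false :: b) F
      have h2 := frm_four F hF (fun t => G (false :: t) - low (fun s => G (false :: s)) t)
        (by show G [false] - G [false] = 0; ring)
        (fun s => by show G (false :: false :: s) - G (false :: false :: s) = 0; ring) b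
      rw [frm_sub] at h2
      have h3 : (fun s : List Bool => G (false :: true :: hoff s) -
          low (fun s => G (false :: s)) (true :: hoff s)) = fun s => G (false :: true :: hoff s) := by
        funext s
        rw [frm_low_t]; ring
      rw [h3] at h2
      have e1 : A F (hoff (false :: b)) G = conv (hoff (false :: b)) F (low G) +
          (conv (true :: hoff b) F (low (fun s => G (false :: s))) +
            A F (hoff b) (fun s => G (false :: true :: s)) - 0) -
          conv (true :: hoff b) F (fun s => G (false :: s)) := rfl
      have e2 : T F (false :: b) (fun s => G (hoff s)) =
          conv (false :: b) (fun v => F (hoff v.reverse)) (fun s => G (hoff s)) +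
          (conv (false :: b) (fun v => F (hoff v) - F (hoff v.reverse)) (fun s => G (hoff s)) +
            conv (false :: b) (fun v => F (hoff v ++ [false])) (up (fun s => G (hoff s))) - 0 +
            R F b (fun s => G (hoff (false :: s)))) := rfl
      have e3 : T F b (fun s => G (false :: true :: hoff s)) =
          conv b (fun v => F (hoff v.reverse)) (fun s => G (false :: true :: hoff s)) +
          R F b (fun s => G (hoff (false :: s))) := rfl
      rw [e1, e2, hi, h1, frm_subl, e3]
      linear_combination -h2
    · have hi := ih (fun s => G (false :: false :: true :: s))
      have h1 := frm_one G (true :: b) F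
      have h2 := frm_four F hF
        (fun t => G (false :: false :: t) - low (fun s => G (false :: false :: s)) t)
        (by show G [false, false] - G [false, false] = 0; ring)
        (fun s => by
          show G (false :: false :: false :: s) - G (false :: false :: false :: s) = 0; ring) b
      rw [frm_sub] at h2
      have h3 : (fun s : List Bool => G (false :: false :: true :: hoff s) -
          low (fun s => G (false :: false :: s)) (true :: hoff s)) =
          fun s => G (false :: false :: true :: hoff s) := by
        funext s
        rw [frm_low_t]; ring
      rw [h3] at h2
      have h4 := frm_five F hF (fun t => G (false :: t) - low (fun s => G (false :: s)) t)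
        (by show G [false] - G [false] = 0; ring)
        (fun s => by show G (false :: false :: s) - G (false :: false :: s) = 0; ring) b
      rw [frm_sub] at h4
      have h5 : (fun s : List Bool => G (false :: true :: hoff s) -
          low (fun s => G (false :: s)) (true :: hoff s)) = fun s => G (false :: true :: hoff s) := by
        funext s
        rw [frm_low_t]; ring
      rw [h5] at h4
      have e1 : A F (hoff (true :: b)) G = conv (hoff (true :: b)) F (low G) +
          (conv (false :: true :: hoff b) F (low (fun s => G (false :: s))) +
            (conv (true :: hoff b) F (low (fun s => G (false :: false :: s))) +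
              A F (hoff b) (fun s => G (false :: false :: true :: s)) - 0) -
            conv (true :: hoff b) F (fun s => G (false :: false :: s))) -
          conv (false :: true :: hoff b) F (fun s => G (false :: s)) := rfl
      have e2 : T F (true :: b) (fun s => G (hoff s)) =
          conv (true :: b) (fun v => F (hoff v.reverse)) (fun s => G (hoff s)) +
          (conv (true :: b) (fun v => F (hoff v) - F (hoff v.reverse)) (fun s => G (hoff s)) +
            conv (true :: b) (fun v => F (hoff v ++ [false])) (up (fun s => G (hoff s))) -
            conv b (fun v => F (hoff v.reverse ++ [false]))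
              (fun s => G (false :: true :: hoff s)) +
            R F b (fun s => G (hoff (true :: s)))) := rfl
      have e3 : T F b (fun s => G (false :: false :: true :: hoff s)) =
          conv b (fun v => F (hoff v.reverse)) (fun s => G (false :: false :: true :: hoff s)) +
          R F b (fun s => G (hoff (true :: s))) := rfl
      rw [e1, e2, hi, h1, frm_subl, e3]
      linear_combination -h2 - h4

end Pool.Agent.MP_a57f33_nt.FL
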