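import Pool.Agent.Lib.MP_a57f33_nt.FL.Stm

/-!
Piece lie: `[S_a, S_b] = S_{a,b}` for the Ihara bracket.
-/

set_option autoImplicit false

namespace Pool.Agent.MP_a57f33_nt.FL

open Pool.Agent.MP_a57f33_nt

private lemma lie_add (ψ x y : QX) : der ψ (x + y) = der ψ x + der ψ y :=
  map_add (derL ψ) x y

private lemma lie_sub (ψ x y : QX) : der ψ (x - y) = der ψ x - der ψ y :=
  map_sub (derL ψ) x y

private lemma lie_zero (ψ : QX) : der ψ 0 = 0 := map_zero (derL ψ)

private lemma lie_word (a b : QX) (w : List Bool) :
    der a (der b (word w)) - der b (der a (word w)) = der (ihara a b) (word w) := by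
  induction w with
  | nil => rw [word_nil, der_one, der_one, der_one, lie_zero, lie_zero, sub_self]
  | cons c w ih =>
    cases c with
    | false =>
      rw [word_cons]
      simp only [der_mul, der_false, zero_mul, zero_add]
      rw [← mul_sub, ih]
    | true =>
      obtain ⟨x, hx⟩ : ∃ x : QX, x = FreeAlgebra.ι ℚ true := ⟨_, rfl⟩
      have hd : ∀ ψ : QX, der ψ x = x * ψ - ψ * x := fun ψ => by rw [hx, der_true]
      rw [word_cons, ← hx]
      simp only [der_mul, hd, lie_add, lie_sub]
      rw [← ih]
      unfold ihara
      noncomm_ring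

private lemma lie_der (a b φ : QX) :
    der a (der b φ) - der b (der a φ) = der (ihara a b) φ := by
  have h : (derL a).comp (derL b) - (derL b).comp (derL a) = derL (ihara a b) :=
    linear_ext fun w => lie_word a b w
  exact LinearMap.congr_fun h φ

theorem p_lie : LieS := by
  intro a b φ
  unfold act
  rw [← lie_der a b φ]
  simp only [der_mul, lie_add]
  unfold ihara
  noncomm_ring

end Pool.Agent.MP_a57f33_nt.FL
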