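import Pool.Agent.Lib.MP_a57f33_nt.FL.Stm

/-!
# MP_a57f33_nt, FL, piece lin: linear independence from injectivity
-/

namespace Pool.Agent.MP_a57f33_nt.FL

open Pool.Agent.MP_a57f33_nt

private theorem lin_conv_smul (w : List Bool) : ∀ (r : ℚ) (f g : List Bool → ℚ),
    conv w f (fun t => r * g t) = r * conv w f g := by
  induction w with
  | nil => intro r f g; simp only [conv]; ring
  | cons b w ih => intro r f g; simp only [conv, ih]; ring

private theorem lin_up_add (g g' : List Bool → ℚ) :
    up (fun t => g t + g' t) = fun t => up g t + up g' t := by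
  funext s
  rcases s with _ | ⟨y, s⟩
  · show (0 : ℚ) = 0 + 0
    ring
  · cases y
    · show (0 : ℚ) = 0 + 0
      ring
    · rfl

private theorem lin_up_smul (r : ℚ) (g : List Bool → ℚ) :
    up (fun t => r * g t) = fun t => r * up g t := by
  funext s
  rcases s with _ | ⟨y, s⟩
  · show (0 : ℚ) = r * 0
    ring
  · cases y
    · show (0 : ℚ) = r * 0
      ring
    · rfl

private theorem lin_R_add (F : List Bool → ℚ) (b : List Bool) : ∀ g g' : List Bool → ℚ,
    R F b (fun t => g t + g' t) = R F b g + R F b g' := by
  induction b with
  | nil => intro g g'; simp only [R]; ring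
  | cons x b ih =>
    intro g g'
    simp only [R]
    rw [lin_up_add, conv_add_right, conv_add_right, ih]
    split_ifs
    · rw [conv_add_right]; ring
    · ring

private theorem lin_R_smul (F : List Bool → ℚ) (b : List Bool) : ∀ (r : ℚ) (g : List Bool → ℚ),
    R F b (fun t => r * g t) = r * R F b g := by
  induction b with
  | nil => intro r g; simp only [R]; ring
  | cons x b ih =>
    intro r g
    simp only [R]
    rw [lin_up_smul, lin_conv_smul, lin_conv_smul, ih]
    split_ifs
    · rw [lin_conv_smul]; ring
    · ring

/-- the action as a linear map -/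
private noncomputable def lin_T (F : List Bool → ℚ) (b : List Bool) : (List Bool → ℚ) →ₗ[ℚ] ℚ where
  toFun g := T F b g
  map_add' g g' := by
    show conv b _ (fun t => g t + g' t) + R F b (fun t => g t + g' t) =
      (conv b _ g + R F b g) + (conv b _ g' + R F b g')
    rw [conv_add_right, lin_R_add]; ring
  map_smul' r g := by
    show conv b _ (fun t => r * g t) + R F b (fun t => r * g t) = r * (conv b _ g + R F b g)
    rw [lin_conv_smul, lin_R_smul]; ring

private theorem lin_rep_inj {i j : ℕ} (h : rep i = rep j) : i = j := by
  have := congrArg List.length h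
  simpa using this

private theorem lin_lev (j : ℕ) : lev (rep j) = 0 := by
  unfold lev rep
  rw [List.count_replicate]
  simp

private def lin_f (r : ℕ) (i : List ℕ × ℕ) : List ℕ × ℕ := (r :: i.1, i.2)

private def lin_g (j : ℕ) : List ℕ × ℕ := ([], j)

private theorem lin_f_inj (r : ℕ) : Function.Injective (lin_f r) := by
  rintro ⟨l, j⟩ ⟨l', j'⟩ h
  unfold lin_f at h
  rw [Prod.mk.injEq, List.cons.injEq] at h
  exact Prod.ext h.1.2 h.2

private theorem lin_g_inj : Function.Injective lin_g := by
  intro j j' h
  unfold lin_g at h
  rw [Prod.mk.injEq] at h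
  exact h.2

private theorem lin_dec (c : (List ℕ × ℕ) →₀ ℚ) (n : ℕ)
    (hn : ∀ r l j, n ≤ r → c (r :: l, j) = 0) :
    c = (c.comapDomain lin_g lin_g_inj.injOn).mapDomain lin_g +
      ∑ r ∈ Finset.range n, (c.comapDomain (lin_f r) (lin_f_inj r).injOn).mapDomain (lin_f r) := by
  ext ⟨l, j⟩
  rw [Finsupp.add_apply, Finsupp.finsetSum_apply]
  cases l with
  | nil =>
    have h1 : (c.comapDomain lin_g lin_g_inj.injOn).mapDomain lin_g ([], j) = c ([], j) := by
      have := Finsupp.mapDomain_apply lin_g_inj (c.comapDomain lin_g lin_g_inj.injOn) j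
      rw [show (([], j) : List ℕ × ℕ) = lin_g j from rfl, this, Finsupp.comapDomain_apply]
    have h2 : ∀ r ∈ Finset.range n,
        (c.comapDomain (lin_f r) (lin_f_inj r).injOn).mapDomain (lin_f r) ([], j) = 0 := by
      intro r _
      apply Finsupp.mapDomain_of_notMem_range
      rintro ⟨i, hi⟩
      unfold lin_f at hi
      rw [Prod.mk.injEq] at hi
      exact List.cons_ne_nil _ _ hi.1
    rw [h1, Finset.sum_eq_zero h2, add_zero]
  | cons r l =>
    have h1 : (c.comapDomain lin_g lin_g_inj.injOn).mapDomain lin_g (r :: l, j) = 0 := by
      apply Finsupp.mapDomain_of_notMem_range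
      rintro ⟨i, hi⟩
      unfold lin_g at hi
      rw [Prod.mk.injEq] at hi
      exact List.cons_ne_nil _ _ hi.1.symm
    rw [h1, zero_add]
    have h2 : ∀ s ∈ Finset.range n, s ≠ r →
        (c.comapDomain (lin_f s) (lin_f_inj s).injOn).mapDomain (lin_f s) (r :: l, j) = 0 := by
      intro s _ hs
      apply Finsupp.mapDomain_of_notMem_range
      rintro ⟨i, hi⟩
      unfold lin_f at hi
      rw [Prod.mk.injEq, List.cons.injEq] at hi
      exact hs hi.1.1
    have h3 : (c.comapDomain (lin_f r) (lin_f_inj r).injOn).mapDomain (lin_f r) (r :: l, j) =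
        c (r :: l, j) := by
      have := Finsupp.mapDomain_apply (lin_f_inj r) (c.comapDomain (lin_f r) (lin_f_inj r).injOn)
        (l, j)
      rw [show ((r :: l, j) : List ℕ × ℕ) = lin_f r (l, j) from rfl, this,
        Finsupp.comapDomain_apply]
    by_cases hr : r < n
    · rw [Finset.sum_eq_single r h2 (fun h => absurd (Finset.mem_range.2 hr) h), h3]
    · rw [hn r l j (not_lt.1 hr)]
      symm
      apply Finset.sum_eq_zero
      intro s hs
      refine h2 s hs ?_
      rintro rfl
      exact hr (Finset.mem_range.1 hs)

theorem p_lin : LinS := by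
  intro hest hinj F hF e he0 he1 hfin
  rw [linearIndependent_iff]
  have hE : ∀ (r : ℕ) (c : (List ℕ × ℕ) →₀ ℚ) (b : List Bool),
      Finsupp.linearCombination ℚ e (c.mapDomain (lin_f r)) b =
        T (F r) b (Finsupp.linearCombination ℚ e c) := by
    intro r c b
    have h : Finsupp.linearCombination ℚ e (c.mapDomain (lin_f r)) b =
        (Finsupp.linearCombination ℚ (fun i => lin_T (F r) b (e i))) c := by
      rw [Finsupp.linearCombination_mapDomain, Finsupp.linearCombination_apply,
        Finsupp.linearCombination_apply, Finsupp.sum, Finsupp.sum, Finset.sum_apply]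
      apply Finset.sum_congr rfl
      rintro ⟨l, j⟩ _
      show c (l, j) * e (r :: l, j) b = c (l, j) * T (F r) b (e (l, j))
      rw [he1]
    rw [h]
    have h2 := Finsupp.apply_linearCombination ℚ (lin_T (F r) b) e c
    exact h2.symm
  have key : ∀ n : ℕ, ∀ c : (List ℕ × ℕ) →₀ ℚ, (∀ i, c i ≠ 0 → i.1.length < n) →
      Finsupp.linearCombination ℚ e c = 0 → c = 0 := by
    intro n
    induction n with
    | zero =>
      intro c hc _
      ext i
      by_contra h
      exact absurd (hc i h) (Nat.not_lt_zero _)
    | succ n ih =>
      intro c hc h0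
      obtain ⟨m, hm⟩ : ∃ m : ℕ, ∀ r l j, m ≤ r → c (r :: l, j) = 0 := by
        refine ⟨(c.support.sup (fun i => i.1.headD 0)) + 1, fun r l j hr => ?_⟩
        by_contra h
        have h1 : (r :: l, j) ∈ c.support := Finsupp.mem_support_iff.2 h
        have h2 : r ≤ c.support.sup (fun i : List ℕ × ℕ => i.1.headD 0) :=
          Finset.le_sup (f := fun i : List ℕ × ℕ => i.1.headD 0) h1
        omega
      have hdec := lin_dec c m hm
      set c₀ := c.comapDomain lin_g lin_g_inj.injOn with hc₀
      have hsum : ∀ b, Finsupp.linearCombination ℚ e (c₀.mapDomain lin_g) b +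
          ∑ r ∈ Finset.range m, T (F r) b (Finsupp.linearCombination ℚ e
            (c.comapDomain (lin_f r) (lin_f_inj r).injOn)) = 0 := by
        intro b
        have h1 : Finsupp.linearCombination ℚ e c b = 0 := by rw [h0]; rfl
        rw [hdec, map_add, map_sum, Pi.add_apply, Finset.sum_apply] at h1
        rw [← h1]
        congr 1
        apply Finset.sum_congr rfl
        intro r _
        rw [hE]
      have hc₀b : ∀ b, Finsupp.linearCombination ℚ e (c₀.mapDomain lin_g) b =
          c₀.sum (fun j x => x * (if b = rep j then 1 else 0)) := by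
        intro b
        rw [Finsupp.linearCombination_mapDomain, Finsupp.linearCombination_apply, Finsupp.sum,
          Finsupp.sum, Finset.sum_apply]
        apply Finset.sum_congr rfl
        intro j _
        show c₀ j * e ([], j) b = _
        rw [he0]
      have hz := hinj hest F hF m (fun r => Finsupp.linearCombination ℚ e
          (c.comapDomain (lin_f r) (lin_f_inj r).injOn))
        (fun r => by
          refine Set.Finite.subset ((c.comapDomain (lin_f r) (lin_f_inj r).injOn).support.finite_toSet.biUnion
            (fun i _ => hfin i)) ?_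
          intro u hu
          rw [Set.mem_ofPred_eq, Finsupp.linearCombination_apply, Finsupp.sum,
            Finset.sum_apply] at hu
          obtain ⟨i, hi, hi'⟩ := Finset.exists_ne_zero_of_sum_ne_zero hu
          rw [Set.mem_iUnion₂]
          refine ⟨i, hi, ?_⟩
          rw [Set.mem_ofPred_eq]
          intro h
          apply hi'
          rw [Pi.smul_apply, h, smul_zero])
        (fun b => Finsupp.linearCombination ℚ e (c₀.mapDomain lin_g) b)
        (fun b hb => by
          show Finsupp.linearCombination ℚ e (c₀.mapDomain lin_g) b = 0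
          rw [hc₀b]
          apply Finset.sum_eq_zero
          intro j _
          have : b ≠ rep j := by
            rintro rfl
            exact hb (lin_lev j)
          show c₀ j * (if b = rep j then (1 : ℚ) else 0) = 0
          rw [if_neg this, mul_zero])
        hsum
      have hr0 : ∀ r, r < m → c.comapDomain (lin_f r) (lin_f_inj r).injOn = 0 := by
        intro r hr
        apply ih
        · intro i hi
          rw [Finsupp.comapDomain_apply] at hi
          have := hc _ hi
          unfold lin_f at this
          simpa using this
        · funext u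
          exact hz r hr u
      have hr0' : ∀ r l j, c (r :: l, j) = 0 := by
        intro r l j
        by_cases hr : r < m
        · have := DFunLike.congr_fun (hr0 r hr) (l, j)
          rw [Finsupp.comapDomain_apply] at this
          exact this
        · exact hm r l j (not_lt.1 hr)
      ext ⟨l, j⟩
      cases l with
      | cons r l => exact hr0' r l j
      | nil =>
        have h1 := hsum (rep j)
        have h2 : ∑ r ∈ Finset.range m, T (F r) (rep j) (Finsupp.linearCombination ℚ e
            (c.comapDomain (lin_f r) (lin_f_inj r).injOn)) = 0 := by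
          apply Finset.sum_eq_zero
          intro r hr
          rw [hr0 r (Finset.mem_range.1 hr), map_zero]
          exact map_zero (lin_T (F r) (rep j))
        rw [h2, add_zero, hc₀b, Finsupp.sum] at h1
        show c ([], j) = 0
        by_contra hne
        have hj : j ∈ c₀.support := by
          rw [Finsupp.mem_support_iff, hc₀, Finsupp.comapDomain_apply]
          exact hne
        rw [Finset.sum_eq_single j (fun i _ hij => by
          show c₀ i * (if rep j = rep i then (1 : ℚ) else 0) = 0
          rw [if_neg (fun h => hij (lin_rep_inj h).symm), mul_zero])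
          (fun h => absurd hj h)] at h1
        have h3 : c₀ j * (if rep j = rep j then (1 : ℚ) else 0) = 0 := h1
        rw [if_pos rfl, mul_one, hc₀, Finsupp.comapDomain_apply] at h3
        exact hne h3
  intro c hc
  refine key ((c.support.sup (fun i => i.1.length)) + 1) c ?_ hc
  intro i hi
  have h1 : i ∈ c.support := Finsupp.mem_support_iff.2 hi
  have h2 : i.1.length ≤ c.support.sup (fun i : List ℕ × ℕ => i.1.length) :=
    Finset.le_sup (f := fun i : List ℕ × ℕ => i.1.length) h1
  omega

end Pool.Agent.MP_a57f33_nt.FL
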