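import Pool.Agent.Lib.MP_a57f33_nt.FL.Asm
import Pool.Agent.Lib.MP_a57f33_nt.FL.P_act
import Pool.Agent.Lib.MP_a57f33_nt.FL.P_ar1
import Pool.Agent.Lib.MP_a57f33_nt.FL.P_bas
import Pool.Agent.Lib.MP_a57f33_nt.FL.P_end
import Pool.Agent.Lib.MP_a57f33_nt.FL.P_eqv
import Pool.Agent.Lib.MP_a57f33_nt.FL.P_est
import Pool.Agent.Lib.MP_a57f33_nt.FL.P_fre
import Pool.Agent.Lib.MP_a57f33_nt.FL.P_frm
import Pool.Agent.Lib.MP_a57f33_nt.FL.P_inj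
import Pool.Agent.Lib.MP_a57f33_nt.FL.P_lie
import Pool.Agent.Lib.MP_a57f33_nt.FL.P_lin

/-!
The theorem on free lifts, given the Brown-Zagier relation.
-/

namespace Pool.Agent.MP_a57f33_nt.FL

open Pool.Agent.MP_a57f33_nt

theorem fl_of_bz (bz : BZrel)
    (ψ : ℕ → QX) (h : ∀ k, ψ k ∈ dm0) (hh : ∀ k, IsHom (2 * k + 3) (ψ k))
    (hc : ∀ k, coeff (ψ k) (List.replicate (2 * k + 2) false ++ [true]) ≠ 0) :
    (∀ N : ℕ,
      LinearIndependent ℚ (fun (i : {i : List ℕ × ℕ // iwt i = N})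
        (b : {b : List Bool // (hoff b).length = N}) => coeff (elt ψ i.1.1 i.1.2) (hoff b.1)) ∧
      Submodule.span ℚ (Set.range (fun (i : {i : List ℕ × ℕ // iwt i = N})
        (b : {b : List Bool // (hoff b).length = N}) =>
          coeff (elt ψ i.1.1 i.1.2) (hoff b.1))) = ⊤) ∧
    ∃ L : LieN →ₗ[ℚ] QX, Function.Injective L ∧
      (∀ (k : ℕ) (hk : FreeAlgebra.ι ℚ k ∈ LieN), L ⟨FreeAlgebra.ι ℚ k, hk⟩ = ψ k) ∧
      ∀ P Q : LieN, L ⁅P, Q⁆ = ihara (L P) (L Q) :=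
  asm_main p_act p_frm p_est p_inj p_ar1 p_end p_lin p_eqv p_bas p_lie p_fre bz ψ h hh hc

end Pool.Agent.MP_a57f33_nt.FL
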