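import Pool.Agent.Lib.MP_a57f33_nt.FL.Stm

/-!
Injectivity.
-/

namespace Pool.Agent.MP_a57f33_nt.FL

open Pool.Agent.MP_a57f33_nt

lemma inj_hoff_length (v : List Bool) : (hoff v).length = 2 * v.length + lev v := by
  induction v with
  | nil => rfl
  | cons x v ih =>
    cases x
    · simp only [hoff, lev, List.length_cons, List.count_cons] at *
      simp
      omega
    · simp only [hoff, lev, List.length_cons, List.count_cons] at *
      simp
      omega

lemma inj_lev_append (v s : List Bool) : lev (v ++ s) = lev v + lev s := by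
  simp [lev, List.count_append]

lemma inj_lev_reverse (v : List Bool) : lev v.reverse = lev v := by
  simp [lev]

lemma inj_lev_rep (j : ℕ) : lev (rep j) = 0 := by
  simp [lev, List.count_replicate]

lemma inj_rep_of_lev {t : List Bool} (h : lev t = 0) : t = rep t.length := by
  rw [List.eq_replicate_iff]
  refine ⟨rfl, fun x hx => ?_⟩
  cases x with
  | false => rfl
  | true =>
    exfalso
    have : true ∉ t := List.count_eq_zero.mp h
    exact this hx

lemma inj_conv_lt {B : ℚ} (b : List Bool) : ∀ (f g : List Bool → ℚ),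
    (∀ v s, v ++ s = b → padicNorm 2 (f v * g s) < B) → padicNorm 2 (conv b f g) < B := by
  induction b with
  | nil =>
    intro f g h
    exact h [] [] rfl
  | cons x b ih =>
    intro f g h
    simp only [conv]
    refine lt_of_le_of_lt (padicNorm.nonarchimedean) (max_lt ?_ ?_)
    · exact h [] (x :: b) rfl
    · apply ih
      intro v s hvs
      exact h (x :: v) s (by simp [hvs])

lemma inj_conv_single (v0 s0 : List Bool) (g : List Bool → ℚ) : ∀ (f : List Bool → ℚ),
    (∀ v s, v ++ s = v0 ++ s0 → v ≠ v0 → f v * g s = 0) → conv (v0 ++ s0) f g = f v0 * g s0 := by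
  have zero : ∀ (b : List Bool) (f : List Bool → ℚ), (∀ v s, v ++ s = b → f v * g s = 0) →
      conv b f g = 0 := by
    intro b
    induction b with
    | nil => intro f h; exact h [] [] rfl
    | cons x b ih =>
      intro f h
      simp only [conv]
      rw [ih _ (fun v s hvs => h (x :: v) s (by simp [hvs])), h [] (x :: b) rfl, add_zero]
  induction v0 with
  | nil =>
    intro f h
    cases s0 with
    | nil => rfl
    | cons x s0 =>
      simp only [List.nil_append, conv]
      rw [zero s0]
      · ring
      · intro v s hvs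
        exact h (x :: v) s (by simp [hvs]) (by simp)
  | cons x v0 ih =>
    intro f h
    simp only [List.cons_append, conv]
    rw [ih, h [] (x :: (v0 ++ s0)) rfl (by simp), zero_add]
    intro v s hvs hne
    exact h (x :: v) s (by simp [hvs]) (by simpa using hne)

theorem p_inj : InjS := by
  intro est F hF n g hfin c hc h
  by_contra hcon
  push Not at hcon
  obtain ⟨r1, hr1, u1, hu1⟩ := hcon
  have : Fact (Nat.Prime 2) := ⟨Nat.prime_two⟩
  -- the support
  have hSfin : {p : ℕ × List Bool | p.1 < n ∧ g p.1 p.2 ≠ 0}.Finite := by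
    have : {p : ℕ × List Bool | p.1 < n ∧ g p.1 p.2 ≠ 0} ⊆
        ⋃ r ∈ Finset.range n, (fun u => ((r, u) : ℕ × List Bool)) '' {u | g r u ≠ 0} := by
      rintro ⟨r, u⟩ ⟨h1, h2⟩
      simp only [Finset.mem_range, Set.mem_iUnion, Set.mem_image, Set.mem_ofPred_eq]
      exact ⟨r, h1, u, h2, rfl⟩
    refine Set.Finite.subset ?_ this
    apply Set.Finite.biUnion (Finset.finite_toSet _)
    intro r _
    exact (hfin r).image _
  set S : Finset (ℕ × List Bool) := hSfin.toFinset with hS
  have memS : ∀ p, p ∈ S ↔ p.1 < n ∧ g p.1 p.2 ≠ 0 := by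
    intro p; simp [hS]
  have hne : S.Nonempty := ⟨(r1, u1), by rw [memS]; exact ⟨hr1, hu1⟩⟩
  obtain ⟨p1, hp1, hmin⟩ := Finset.exists_min_image S (fun p => lev p.2) hne
  set ν : ℕ × List Bool → ℚ := fun p => padicNorm 2 (lam p.1 (F p.1)) * padicNorm 2 (g p.1 p.2)
    with hν
  obtain ⟨p2, hp2, hmax⟩ := Finset.exists_max_image (S.filter fun p => lev p.2 = lev p1.2) ν
    ⟨p1, by simp [hp1]⟩
  obtain ⟨p3, hp3, hmax3⟩ := Finset.exists_max_image
    ((S.filter fun p => lev p.2 = lev p1.2).filter fun p => ν p = ν p2) (fun p => p.1)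
    ⟨p2, Finset.mem_filter.mpr ⟨hp2, rfl⟩⟩
  simp only [Finset.mem_filter] at hp2 hp3 hmax hmax3
  obtain ⟨r0, u0⟩ := p3
  obtain ⟨⟨hp3S, hlev3⟩, hν3⟩ := hp3
  rw [memS] at hp3S
  obtain ⟨hr0, hg0⟩ := hp3S
  set M : ℚ := ν p2 with hM
  simp only at hlev3 hr0 hg0
  have hMpos : 0 < M := by
    rw [← hν3]
    simp only [hν]
    apply mul_pos
    · exact lt_of_le_of_ne (padicNorm.nonneg _) (Ne.symm (padicNorm.nonzero (hF r0).ne))
    · exact lt_of_le_of_ne (padicNorm.nonneg _) (Ne.symm (padicNorm.nonzero hg0))
  set b : List Bool := rep r0 ++ true :: u0 with hb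
  have hlevb : lev b = lev p1.2 + 1 := by
    rw [hb, inj_lev_append, inj_lev_rep, ← hlev3]
    simp [lev]
  -- vanishing below the minimal level
  have hlow : ∀ r, r < n → ∀ u, lev u < lev p1.2 → g r u = 0 := by
    intro r hr u hu
    by_contra hg
    have := hmin (r, u) (by rw [memS]; exact ⟨hr, hg⟩)
    simp only at this
    omega
  have hbd : ∀ r, r < n → ∀ u, lev u = lev p1.2 →
      padicNorm 2 (lam r (F r)) * padicNorm 2 (g r u) ≤ M := by
    intro r hr u hu
    by_cases hg : g r u = 0
    · rw [hg, padicNorm.zero, mul_zero]; exact hMpos.le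
    · exact hmax (r, u) ⟨by rw [memS]; exact ⟨hr, hg⟩, hu⟩
  have hstrict : ∀ r, r < n → r0 < r → ∀ u, lev u = lev p1.2 →
      padicNorm 2 (lam r (F r)) * padicNorm 2 (g r u) < M := by
    intro r hr hr' u hu
    by_cases hg : g r u = 0
    · rw [hg, padicNorm.zero, mul_zero]; exact hMpos
    · refine lt_of_le_of_ne (hbd r hr u hu) ?_
      intro heq
      have := hmax3 (r, u) ⟨⟨by rw [memS]; exact ⟨hr, hg⟩, hu⟩, heq⟩
      simp only at this
      omega
  -- the small part
  have hR : ∀ r, r < n → padicNorm 2 (R (F r) b (g r)) < M := by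
    intro r hr
    refine est r (F r) (hF r) M hMpos b (g r) ?_ ?_
    · intro u hu
      exact hlow r hr u (by omega)
    · intro u hu
      exact hbd r hr u (by omega)
  -- the splittings that matter
  have hsplit : ∀ r, r < n → ∀ v s, v ++ s = b → F r (hoff v.reverse) * g r s ≠ 0 →
      ∃ j, v = rep r0 ++ true :: rep j ∧ r = r0 + j ∧ lev s = lev p1.2 := by
    intro r hr v s hvs hne0
    have hFne : F r (hoff v.reverse) ≠ 0 := left_ne_zero_of_mul hne0
    have hgne : g r s ≠ 0 := right_ne_zero_of_mul hne0
    have hlen : (hoff v.reverse).length = 2 * r + 3 := by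
      by_contra hl
      exact hFne ((hF r).hom _ hl)
    rw [inj_hoff_length, inj_lev_reverse, List.length_reverse] at hlen
    have hls : lev p1.2 ≤ lev s := by
      by_contra hl
      exact hgne (hlow r hr s (by omega))
    have hsum : lev v + lev s = lev p1.2 + 1 := by
      rw [← inj_lev_append, hvs, hlevb]
    have hv1 : lev v = 1 := by omega
    rw [hb] at hvs
    rcases List.append_eq_append_iff.mp hvs with ⟨a', h1, h2⟩ | ⟨c', h1, h2⟩
    · exfalso
      have : lev (rep r0) = lev v + lev a' := by rw [h1, inj_lev_append]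
      rw [inj_lev_rep] at this
      omega
    · cases c' with
      | nil =>
        exfalso
        rw [List.append_nil] at h1
        rw [h1, inj_lev_rep] at hv1
        omega
      | cons x t =>
        rw [List.cons_append, List.cons.injEq] at h2
        obtain ⟨hx, ht⟩ := h2
        subst hx
        have hlt : lev t = 0 := by
          have : lev v = lev (rep r0) + lev (true :: t) := by rw [h1, inj_lev_append]
          rw [inj_lev_rep] at this
          have h3 : lev (true :: t) = lev t + 1 := by simp [lev]
          omega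
        have htr := inj_rep_of_lev hlt
        refine ⟨t.length, by rw [h1, ← htr], ?_, by omega⟩
        have : v.length = r0 + (t.length + 1) := by rw [h1]; simp
        omega
  have hrev : ∀ i j, (rep i ++ true :: rep j).reverse = rep j ++ true :: rep i := by
    intro i j
    simp
  have hC : ∀ r, r < n → r ≠ r0 →
      padicNorm 2 (conv b (fun v => F r (hoff v.reverse)) (g r)) < M := by
    intro r hr hrne
    apply inj_conv_lt
    intro v s hvs
    by_cases h0 : F r (hoff v.reverse) * g r s = 0
    · rw [h0, padicNorm.zero]; exact hMpos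
    · obtain ⟨j, hv, hj, hls⟩ := hsplit r hr v s hvs h0
      rw [padicNorm.mul, hv, hrev]
      refine lt_of_le_of_lt (mul_le_mul_of_nonneg_right ((hF r).le j r0 (by omega))
        (padicNorm.nonneg _)) ?_
      exact hstrict r hr (by omega) s hls
  have hC0 : conv b (fun v => F r0 (hoff v.reverse)) (g r0) = lam r0 (F r0) * g r0 u0 := by
    have hb' : b = (rep r0 ++ [true]) ++ u0 := by rw [hb]; simp
    rw [hb', inj_conv_single]
    · congr 2
      rw [show (rep r0 ++ [true]).reverse = true :: rep r0 by simp]
    · intro v s hvs hvne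
      by_contra h0
      obtain ⟨j, hv, hj, _⟩ := hsplit r0 hr0 v s (by rw [hvs, hb']) h0
      have : j = 0 := by omega
      subst this
      exact hvne hv
  -- the contradiction
  have hrow := h b
  rw [hc b (by omega), zero_add] at hrow
  have hdec : ∑ r ∈ Finset.range n, T (F r) b (g r) = lam r0 (F r0) * g r0 u0 +
      ∑ r ∈ Finset.range n, (if r = r0 then R (F r) b (g r) else T (F r) b (g r)) := by
    rw [← Finset.add_sum_erase (Finset.range n) _ (Finset.mem_range.mpr hr0),
      ← Finset.add_sum_erase (Finset.range n)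
        (fun r => if r = r0 then R (F r) b (g r) else T (F r) b (g r)) (Finset.mem_range.mpr hr0)]
    rw [if_pos rfl]
    have : ∑ r ∈ (Finset.range n).erase r0, (if r = r0 then R (F r) b (g r) else T (F r) b (g r)) =
        ∑ r ∈ (Finset.range n).erase r0, T (F r) b (g r) := by
      apply Finset.sum_congr rfl
      intro r hr
      rw [if_neg (Finset.ne_of_mem_erase hr)]
    rw [this]
    simp only [T, hC0]
    ring
  rw [hdec] at hrow
  have hsmall : padicNorm 2 (∑ r ∈ Finset.range n,
      (if r = r0 then R (F r) b (g r) else T (F r) b (g r))) < M := by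
    apply padicNorm.sum_lt' _ hMpos
    intro r hr
    rw [Finset.mem_range] at hr
    split_ifs with h1
    · exact hR r hr
    · unfold T
      exact lt_of_le_of_lt (padicNorm.nonarchimedean) (max_lt (hC r hr h1) (hR r hr))
  have heq : lam r0 (F r0) * g r0 u0 = -(∑ r ∈ Finset.range n,
      (if r = r0 then R (F r) b (g r) else T (F r) b (g r))) := by linarith
  have : M < M := by
    calc M = padicNorm 2 (lam r0 (F r0) * g r0 u0) := by
          rw [padicNorm.mul, ← hν3]
      _ < M := by rw [heq, padicNorm.neg]; exact hsmall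
  exact lt_irrefl _ this

end Pool.Agent.MP_a57f33_nt.FL
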