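import Pool.Agent.Lib.MP_a57f33_nt.FL.Stm2
import Pool.Agent.Lib.MP_a57f33_nt.FL.P_fre

/-!
Piece rng: if one family of lifts generates `dm₀`, so does every other family.
-/

set_option autoImplicit false

namespace Pool.Agent.MP_a57f33_nt.FL

open Pool.Agent.MP_a57f33_nt

section

attribute [local instance 100] LieRing.ofAssociativeRing

lemma rng_conv {X : Type} (w : List X) : ∀ f g : List X → ℚ,
    (∀ u v, u ++ v = w → f u * g v = 0) → conv w f g = 0 := by
  induction w with
  | nil =>
    intro f g h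
    simpa only [conv] using h [] [] rfl
  | cons b w ih =>
    intro f g h
    simp only [conv]
    rw [h [] (b :: w) rfl, zero_add]
    exact ih _ _ (fun u v huv => h (b :: u) v (by rw [List.cons_append, huv]))

/-- elements all of whose words have more than `d` letters `x₁` -/
def rng_M (d : ℕ) (x : QX) : Prop := ∀ w : List Bool, w.count true ≤ d → coeff x w = 0

lemma rng_M_add {d : ℕ} {x y : QX} (hx : rng_M d x) (hy : rng_M d y) : rng_M d (x + y) := by
  intro w hw
  rw [coeff_add, hx w hw, hy w hw, add_zero]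

lemma rng_M_sub {d : ℕ} {x y : QX} (hx : rng_M d x) (hy : rng_M d y) : rng_M d (x - y) := by
  intro w hw
  rw [coeff_sub, hx w hw, hy w hw, sub_zero]

lemma rng_M_smul {d : ℕ} {x : QX} (r : ℚ) (hx : rng_M d x) : rng_M d (r • x) := by
  intro w hw
  rw [coeff_smul, hx w hw, mul_zero]

lemma rng_M_zero (d : ℕ) : rng_M d 0 := fun w _ => coeff_zero w

lemma rng_M_mul_left {d : ℕ} {x : QX} (a : QX) (hx : rng_M d x) : rng_M d (a * x) := by
  intro w hw
  rw [coeff_mul]
  apply rng_conv
  intro u v huv
  rw [hx v, mul_zero]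
  rw [← huv, List.count_append] at hw
  omega

lemma rng_M_mul_right {d : ℕ} {x : QX} (a : QX) (hx : rng_M d x) : rng_M d (x * a) := by
  intro w hw
  rw [coeff_mul]
  apply rng_conv
  intro u v huv
  rw [hx u, zero_mul]
  rw [← huv, List.count_append] at hw
  omega

lemma rng_M_mul {x y : QX} (hx : rng_M 0 x) (hy : rng_M 0 y) : rng_M 1 (x * y) := by
  intro w hw
  rw [coeff_mul]
  apply rng_conv
  intro u v huv
  rw [← huv, List.count_append] at hw
  by_cases h : u.count true = 0
  · rw [hx u h.le, zero_mul]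
  · rw [hy v (by omega), mul_zero]

lemma rng_M_true : rng_M 0 (FreeAlgebra.ι ℚ true) := by
  intro w hw
  rw [coeff_iota, if_neg]
  rintro rfl
  simp at hw

lemma rng_M_der {x : QX} (hx : rng_M 0 x) (a : QX) : rng_M 1 (der x a) := by
  let S : Submodule ℚ QX :=
    { carrier := {y | rng_M 1 y}
      add_mem' := fun h k => rng_M_add h k
      zero_mem' := rng_M_zero 1
      smul_mem' := fun r _ h => rng_M_smul r h }
  have key : ∀ w : List Bool, rng_M 1 (der x (word w)) := by
    intro w
    induction w with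
    | nil => rw [word_nil, der_one]; exact rng_M_zero 1
    | cons b w ih =>
      rw [word_cons, der_mul]
      refine rng_M_add (rng_M_mul_right _ ?_) (rng_M_mul_left _ ih)
      cases b with
      | false => rw [der_false]; exact rng_M_zero 1
      | true =>
        rw [der_true]
        exact rng_M_sub (rng_M_mul rng_M_true hx) (rng_M_mul hx rng_M_true)
  have h1 : (S.mkQ.comp (derL x)) = 0 := by
    apply linear_ext
    intro w
    rw [LinearMap.comp_apply, LinearMap.zero_apply, Submodule.mkQ_apply,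
      Submodule.Quotient.mk_eq_zero]
    exact key w
  have h2 := LinearMap.congr_fun h1 a
  rw [LinearMap.comp_apply, LinearMap.zero_apply, Submodule.mkQ_apply,
    Submodule.Quotient.mk_eq_zero] at h2
  exact h2

lemma rng_M_ihara {x y : QX} (hx : rng_M 0 x) (hy : rng_M 0 y) : rng_M 1 (ihara x y) :=
  rng_M_sub (rng_M_add (rng_M_sub (rng_M_mul hx hy) (rng_M_mul hy hx)) (rng_M_der hx y))
    (rng_M_der hy x)

lemma rng_ins (n : ℕ) : ∀ c : List Bool → ℚ, ins false (List.replicate n false) c =
    ((n : ℚ) + 1) * c (List.replicate (n + 1) false) := by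
  induction n with
  | zero => intro c; simp [ins]
  | succ n ih =>
    intro c
    have h1 := ih (fun t => c (false :: t))
    have e1 : List.replicate (n + 1) false = false :: List.replicate n false := rfl
    have e2 : List.replicate (n + 1 + 1) false = false :: false :: List.replicate n false := rfl
    rw [e1, e2]
    simp only [ins]
    rw [h1, e1]
    push_cast
    ring

lemma rng_M_dm0 {x : QX} (hx : x ∈ dm0) : rng_M 0 x := by
  intro w hw
  have h0 : w = List.replicate w.length false := by
    rw [List.eq_replicate_iff]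
    refine ⟨rfl, fun b hb => ?_⟩
    cases b with
    | false => rfl
    | true =>
      have := List.count_pos_iff.2 hb
      omega
  obtain ⟨h1, h2, -⟩ := hx
  have h3 := lie_ins h1
  rw [h0]
  match w.length with
  | 0 => exact h3.1
  | 1 => exact h2
  | n + 2 =>
    have h4 := h3.2 false (List.replicate (n + 1) false) (by simp)
    rw [rng_ins] at h4
    have h5 : ((n + 1 : ℕ) : ℚ) + 1 ≠ 0 := by positivity
    exact (mul_eq_zero.1 h4).resolve_left h5

/-- the homogeneous part of weight `N` -/
noncomputable def rng_pr (N : ℕ) : QX →ₗ[ℚ] QX :=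
  (FreeAlgebra.basisFreeMonoid ℚ Bool).constr ℚ
    (fun w => if w.toList.length = N then word w.toList else 0)

lemma rng_pr_word (N : ℕ) (w : List Bool) :
    rng_pr N (word w) = if w.length = N then word w else 0 := by
  rw [← basis_apply, rng_pr, Module.Basis.constr_basis, FreeMonoid.toList_ofList, basis_apply]

lemma rng_pr_hom {N : ℕ} {x : QX} (hx : IsHom N x) : rng_pr N x = x := by
  have := hom_ext (rng_pr N) LinearMap.id hx (fun w hw => by
    rw [rng_pr_word, if_pos hw, LinearMap.id_apply])
  exact this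

lemma rng_pr_ne {N n : ℕ} {x : QX} (hx : IsHom n x) (h : n ≠ N) : rng_pr N x = 0 := by
  have := hom_ext (rng_pr N) 0 hx (fun w hw => by
    rw [rng_pr_word, if_neg (by omega), LinearMap.zero_apply])
  exact this

lemma rng_ihara_add_left (x y z : QX) : ihara (x + y) z = ihara x z + ihara y z := by
  unfold ihara
  rw [fre_der_add]
  have : der z (x + y) = der z x + der z y := map_add (derL z) x y
  rw [this]
  noncomm_ring

lemma rng_ihara_add_right (x y z : QX) : ihara x (y + z) = ihara x y + ihara x z := by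
  unfold ihara
  rw [fre_der_add]
  have : der x (y + z) = der x y + der x z := map_add (derL x) y z
  rw [this]
  noncomm_ring

lemma rng_ihara_smul_left (r : ℚ) (x y : QX) : ihara (r • x) y = r • ihara x y := by
  unfold ihara
  rw [fre_der_smul]
  have : der y (r • x) = r • der y x := map_smul (derL y) r x
  rw [this]
  simp only [smul_mul_assoc, mul_smul_comm, smul_add, smul_sub]

lemma rng_ihara_smul_right (r : ℚ) (x y : QX) : ihara x (r • y) = r • ihara x y := by
  unfold ihara
  rw [fre_der_smul]
  have : der x (r • y) = r • der x y := map_smul (derL x) r y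
  rw [this]
  simp only [smul_mul_assoc, mul_smul_comm, smul_add, smul_sub]

lemma rng_ihara_zero_left (y : QX) : ihara 0 y = 0 := by
  have := rng_ihara_smul_left 0 0 y
  rwa [zero_smul, zero_smul] at this

lemma rng_ihara_zero_right (x : QX) : ihara x 0 = 0 := by
  have := rng_ihara_smul_right 0 x 0
  rwa [zero_smul, zero_smul] at this

lemma rng_span {U : Set QX} (hU : ∀ x ∈ U, ∀ y ∈ U, ihara x y ∈ Submodule.span ℚ U) :
    ∀ x ∈ Submodule.span ℚ U, ∀ y ∈ Submodule.span ℚ U, ihara x y ∈ Submodule.span ℚ U := by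
  intro x hx
  induction hx using Submodule.span_induction with
  | mem x hx =>
    intro y hy
    induction hy using Submodule.span_induction with
    | mem y hy => exact hU x hx y hy
    | zero => rw [rng_ihara_zero_right]; exact zero_mem _
    | add y z _ _ h1 h2 => rw [rng_ihara_add_right]; exact add_mem h1 h2
    | smul r y _ h1 => rw [rng_ihara_smul_right]; exact Submodule.smul_mem _ r h1
  | zero => intro y _; rw [rng_ihara_zero_left]; exact zero_mem _
  | add x z _ _ h1 h2 =>
    intro y hy
    rw [rng_ihara_add_left]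
    exact add_mem (h1 y hy) (h2 y hy)
  | smul r x _ h1 =>
    intro y hy
    rw [rng_ihara_smul_left]
    exact Submodule.smul_mem _ r (h1 y hy)

lemma rng_sub {ψ : ℕ → QX} {L : LieN →ₗ[ℚ] QX} (hL : Lifts ψ L) (W : Submodule ℚ QX)
    (hW : ∀ x ∈ W, ∀ y ∈ W, ihara x y ∈ W) (hψ : ∀ k, ψ k ∈ W) : ∀ P : LieN, L P ∈ W := by
  have h : ∀ (a : FreeAlgebra ℚ ℕ) (ha : a ∈ LieN), L ⟨a, ha⟩ ∈ W := by
    intro a ha
    refine LieSubalgebra.lieSpan_induction ℚ
      (p := fun a _ => ∀ h : a ∈ LieN, L ⟨a, h⟩ ∈ W) ?_ ?_ ?_ ?_ ?_ ha ha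
    · rintro _ ⟨k, rfl⟩ h
      rw [hL.gen k h]
      exact hψ k
    · intro h
      have : (⟨0, h⟩ : LieN) = 0 := rfl
      rw [this, map_zero]
      exact zero_mem _
    · intro P Q hP' hQ' hP hQ h
      have : (⟨P + Q, h⟩ : LieN) = ⟨P, hP'⟩ + ⟨Q, hQ'⟩ := rfl
      rw [this, map_add]
      exact add_mem (hP _) (hQ _)
    · intro r P hP' hP h
      have : (⟨r • P, h⟩ : LieN) = r • ⟨P, hP'⟩ := rfl
      rw [this, map_smul]
      exact Submodule.smul_mem _ r (hP _)
    · intro P Q hP' hQ' hP hQ h
      have : (⟨⁅P, Q⁆, h⟩ : LieN) = ⁅(⟨P, hP'⟩ : LieN), (⟨Q, hQ'⟩ : LieN)⁆ := rfl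
      rw [this, hL.br]
      exact hW _ (hP _) _ (hQ _)
  rintro ⟨a, ha⟩
  exact h a ha

/-- the word `x₀^(2k+2) x₁` -/
def rng_w (k : ℕ) : List Bool := List.replicate (2 * k + 2) false ++ [true]

theorem p_rng : RngS := by
  intro ψ ψ' L L' hL hL' hgen
  set G : Submodule ℚ QX := LinearMap.range L' with hG
  have hGi : ∀ x ∈ G, ∀ y ∈ G, ihara x y ∈ G := by
    rintro _ ⟨P, rfl⟩ _ ⟨Q, rfl⟩
    exact ⟨⁅P, Q⁆, hL'.br P Q⟩
  have hιm : ∀ k : ℕ, FreeAlgebra.ι ℚ k ∈ LieN := fun k =>
    LieSubalgebra.subset_lieSpan ⟨k, rfl⟩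
  have hψ'G : ∀ k, ψ' k ∈ G := fun k => ⟨⟨_, hιm k⟩, hL'.gen k (hιm k)⟩
  have claim : ∀ k, ψ k ∈ G := by
    intro k
    induction k using Nat.strong_induction_on with
    | _ k ih =>
      set T : Submodule ℚ QX :=
        Submodule.span ℚ {ψ k} ⊔ (G ⊓ LinearMap.ker (coeffL (rng_w k))) with hT
      let U : Set QX := {x | ∃ n, 1 ≤ n ∧ IsHom n x ∧ rng_M 0 x ∧ (n < 2 * k + 3 → x ∈ G) ∧
        (n = 2 * k + 3 → x ∈ T)}
      have hUψ : ∀ j, ψ j ∈ U := by
        intro j
        refine ⟨2 * j + 3, by omega, hL.hom j, rng_M_dm0 (hL.mem j), fun h => ih j (by omega),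
          fun h => ?_⟩
        have : j = k := by omega
        rw [this]
        exact Submodule.mem_sup_left (Submodule.mem_span_singleton_self _)
      have hUi : ∀ x ∈ U, ∀ y ∈ U, ihara x y ∈ Submodule.span ℚ U := by
        rintro x ⟨n, hn, hx1, hx2, hx3, -⟩ y ⟨m, hm, hy1, hy2, hy3, -⟩
        refine Submodule.subset_span ⟨n + m, by omega, isHom_ihara hx1 hy1, ?_, fun h => ?_,
          fun h => ?_⟩
        · intro w hw
          exact rng_M_ihara hx2 hy2 w (by omega)
        · exact hGi x (hx3 (by omega)) y (hy3 (by omega))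
        · refine Submodule.mem_sup_right ⟨hGi x (hx3 (by omega)) y (hy3 (by omega)), ?_⟩
          change coeff (ihara x y) (rng_w k) = 0
          refine rng_M_ihara hx2 hy2 _ ?_
          rw [rng_w, List.count_append, List.count_replicate]
          simp
      have hW := rng_sub hL (Submodule.span ℚ U) (rng_span hUi)
        (fun j => Submodule.subset_span (hUψ j))
      obtain ⟨P, hP⟩ := hgen (ψ' k) (hL'.mem k)
      have h1 : ψ' k ∈ Submodule.span ℚ U := hP ▸ hW P
      have h2 : ∀ x ∈ Submodule.span ℚ U, rng_pr (2 * k + 3) x ∈ T := by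
        intro x hx
        induction hx using Submodule.span_induction with
        | mem x hx =>
          obtain ⟨n, -, hn, -, -, h3⟩ := hx
          by_cases h : n = 2 * k + 3
          · rw [rng_pr_hom (h ▸ hn)]
            exact h3 h
          · rw [rng_pr_ne hn h]
            exact zero_mem _
        | zero => rw [map_zero]; exact zero_mem _
        | add x y _ _ h3 h4 => rw [map_add]; exact add_mem h3 h4
        | smul r x _ h3 => rw [map_smul]; exact Submodule.smul_mem _ r h3
      have h3 := h2 _ h1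
      rw [rng_pr_hom (hL'.hom k), hT, Submodule.mem_sup] at h3
      obtain ⟨a, ha, y, ⟨hy1, hy2⟩, hay⟩ := h3
      obtain ⟨c, rfl⟩ := Submodule.mem_span_singleton.1 ha
      have h4 : c ≠ 0 := by
        rintro rfl
        apply hL'.ne k
        rw [← hay, zero_smul, zero_add]
        exact hy2
      have h5 : ψ k = c⁻¹ • (ψ' k - y) := by
        rw [← hay, add_sub_cancel_right, smul_smul, inv_mul_cancel₀ h4, one_smul]
      rw [h5]
      exact G.smul_mem _ (G.sub_mem (hψ'G k) hy1)
  intro x hx
  obtain ⟨P, rfl⟩ := hgen x hx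
  exact rng_sub hL G hGi claim P

end

end Pool.Agent.MP_a57f33_nt.FL
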