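import Pool.Agent.Lib.MP_a57f33_nt.FL.Defs

/-!
# Free lifts in `dm₀`: statements of the pieces, with proofs in words

THEOREM. Let `ψ_k ∈ dm₀` (`k = 0, 1, 2, …`) be homogeneous of weight `2k+3` with nonzero coefficient of
`x₀^(2k+2) x₁`. Then the elements `S_{ψ_{k₁}} ⋯ S_{ψ_{k_m}} (x₀x₁)^j` of weight `N`, restricted to the
words of weight `N` in the blocks `y₂ = x₀x₁`, `y₃ = x₀x₀x₁`, form a basis of the space of functions on
these words; hence the `ψ_k` generate a free Lie algebra for the Ihara bracket.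

Words in the blocks are lists of `Bool`: `false = y₂`, `true = y₃`; `conv` is the convolution of
`Coeff.lean`, `conv b f g = Σ_{b = v s} f(v) g(s)`. Every piece is independent of the others.
-/

namespace Pool.Agent.MP_a57f33_nt.FL

open Pool.Agent.MP_a57f33_nt

/-- [act] the coefficients of `S_ψ(φ)`.
PROOF. `coeff (ψ φ) w = conv w (ψ|·) (φ|·)` is `coeff_mul`. For `D = der ψ` one has
`(Dφ|[]) = 0`, `(Dφ|a::w) = Δ(w; G_a) + [a = 1] conv w F G_a - conv (a::w) F (G - low G)`, where
`F = (ψ|·)`, `G = (φ|·)`, `G_a(s) = G(a::s)` and `Δ(w; G)` is the same recursion for `w`. To prove it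
take `φ = word u` (both sides are linear in `φ`, `linear_ext`, `derL`) and use induction on `u` (for all
`w`): `der_mul`, `der_one`, `der_false`, `der_true`, `coeff_iota_mul_cons`, `coeff_iota_mul_nil`,
`mul_assoc`. Then `(S_ψ φ|a::w) = conv (a::w) F (low G) + Δ(w;G_a) + [a=1] conv w F G_a` and
`Δ(w;G_a) = A(w;G_a) - conv w F G_a`. -/
def ActS : Prop := ∀ (ψ φ : QX) (w : List Bool), coeff (act ψ φ) w = A (coeff ψ) w (coeff φ)

/-- [frm] the action on words in the blocks. Here `F` is invariant under reversal of words.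
PROOF. (i) `conv (hoff b) F (low G) = conv b (F ∘ hoff) (G ∘ hoff) + conv b (fun v => F (hoff v ++ [false]))
 (up (G ∘ hoff))`: induction on `b`, for all `F`.
(ii) `(true :: hoff m).reverse = true :: hoff m.reverse`; hence
 `(true :: hoff v ++ 0^{y-1}).reverse = hoff ((v ++ [y]).reverse)` where `0^{y-1}` is `[false]` for
 `y = false` and `[false, false]` for `y = true`.
(iii) Let `H` be a function that vanishes on words not beginning with `true`, `g' s = H (true :: hoff s)`,
 and let `P, Q` satisfy `P (hoff v ++ 0^{y-1}) = Q (v ++ [y])` for all `v, y`. Then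
 `conv (hoff b) P H = conv b Q g' - Q [] * g' b`: induction on `b`, for all `P, Q`.
(iv) (ii) and (iii) with `P t = F (true :: t)`, `Q v = F (hoff v.reverse)` give
 `conv (true :: hoff b) F H = conv b Q g'`; with `P t = F (false :: true :: t)`,
 `Q v = F (hoff v.reverse ++ [false])` they give `conv (false :: true :: hoff b) F H = conv b Q g'`.
(v) Induction on `b`, for all `G`: unfold `A` two or three times;
 `A F (01 hoff b) G = conv (01 hoff b) F (low G) - conv (1 hoff b) F (G_0 - low G_0) + A F (hoff b) G_01`,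
 `A F (001 hoff b) G = conv (001 hoff b) F (low G) - conv (01 hoff b) F (G_0 - low G_0)
   - conv (1 hoff b) F (G_00 - low G_00) + A F (hoff b) G_001`,
 and use (i), (iv) and the induction hypothesis. -/
def FrmS : Prop := ∀ (F : List Bool → ℚ), (∀ w : List Bool, F w.reverse = F w) →
  ∀ (b : List Bool) (G : List Bool → ℚ), A F (hoff b) G = T F b (fun s => G (hoff s))

/-- [est] the estimate of the small part. `‖·‖` is `padicNorm 2`.
PROOF. (0) `(hoff v).length = 2 * v.length + lev v`; so for `Good k F`: `F (hoff v) = 0` if `lev v` is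
even; `F (hoff v ++ [false]) = 0` if `lev v` is odd; if `lev v = 1` and `F (hoff v) ≠ 0` then
`v = rep a ++ true :: rep b` with `a + b = k`; if `lev v = 0` and `F (hoff v ++ [false]) ≠ 0` then
`v = rep (k+1)`.
(1) If `‖f v * g s‖ < B` for all `v ++ s = b` then `‖conv b f g‖ < B` (`padicNorm.nonarchimedean`).
(2) Induction on `b` for all `g`, for `b = x :: b'`: all four summands of `R` are `< B`. First summand: for
`v ++ s = b`: `lev v` even: zero; `lev v = 1`: `lev s + 1 = lev b`,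
`‖F (hoff v) - F (hoff v.reverse)‖ * ‖g s‖ < B`; `lev v ≥ 3`: `g s = 0`. Second: `s = true :: s'`,
`up g s = g (false :: s')`, `lev v` odd: zero; `lev v = 0`: `lt'`; `lev v ≥ 2`: `g = 0`. Third: the same.
Fourth: induction hypothesis for `fun s => g (x :: s)`. -/
def EstS : Prop := ∀ (k : ℕ) (F : List Bool → ℚ), Good k F → ∀ (B : ℚ), 0 < B →
  ∀ (b : List Bool) (g : List Bool → ℚ), (∀ u : List Bool, lev u + 1 < lev b → g u = 0) →
    (∀ u : List Bool, lev u + 1 = lev b → padicNorm 2 (lam k F) * padicNorm 2 (g u) ≤ B) →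
    padicNorm 2 (R F b g) < B

/-- [inj] injectivity. (Assume [est].)
PROOF. Let `S = {(r,u) : r < n, g r u ≠ 0}`, finite; suppose it is nonempty. Let `ℓ` be the minimal level
of the `u` with `(r,u) ∈ S`; let `M > 0` be the maximum of `‖λ_r g_r(u)‖` (`λ_r = lam r (F r)`) over
`(r,u) ∈ S`, `lev u = ℓ`; among the `(r,u)` in `S` of level `ℓ` that attain `M` let `(r₀,u₀)` be one with
`r₀` maximal. Look at the hypothesis at `b = rep r₀ ++ true :: u₀`, of level `ℓ+1`, where `c b = 0`:
`Σ_{r<n} (conv b (F_r ∘ hoff ∘ reverse) g_r + R (F_r) b (g_r)) = 0`. By [est], `‖R ..‖ < M`.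
In `conv b (..) g_r` the term of `v ++ s = b` vanishes if `lev v` is even (`Good.hom`, parity of the length)
or `lev v ≥ 3` (then `lev s < ℓ`, `g_r(s) = 0`); if `lev v = 1` then `v = rep r₀ ++ true :: rep j`,
`u₀ = rep j ++ s`, and the length `2 r + 3` forces `r = r₀ + j`. So for `r < r₀` the convolution is 0, for
`r = r₀` it is `F (hoff (true :: rep r₀)) g_{r₀}(u₀) = λ g(u₀)`, of norm `M`, and for `r > r₀` each term has norm
`≤ ‖λ_r‖ ‖g_r(s)‖ < M` by the choice of `r₀` (`lev s = ℓ`). All terms but one have norm `< M`: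
contradiction (`‖x‖ = M`, `x = -(sum of the others)`). -/
def InjS : Prop := EstS → ∀ (F : ℕ → List Bool → ℚ), (∀ k, Good k (F k)) →
  ∀ (n : ℕ) (g : ℕ → List Bool → ℚ), (∀ r, {u | g r u ≠ 0}.Finite) →
  ∀ (c : List Bool → ℚ), (∀ b, lev b ≠ 0 → c b = 0) →
    (∀ b, c b + ∑ r ∈ Finset.range n, T (F r) b (g r) = 0) → ∀ r, r < n → ∀ u, g r u = 0

/-- The numbers of the Brown-Zagier relation. -/
noncomputable def bz (a b : ℕ) : ℚ :=
  ((2 * (a + b + 1)).choose (2 * b + 2) : ℚ) -
    (1 - 1 / 4 ^ (a + b + 1)) * ((2 * (a + b + 1)).choose (2 * a + 1) : ℚ)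

/-- [ar1] `2`-adic estimates. `‖·‖ = padicNorm 2`, `r = a + b + 1 = k + 1`.
PROOF. `bz 0 k = 1 - 2r + 2r/4^r` (`C(2r,2r) = 1`, `C(2r,1) = 2r`) has norm `4^r ‖2r‖ > 1`:
`‖2r/4^r‖ = 4^r ‖2r‖ ≥ 4^r/(2r) > 1 ≥ ‖1-2r‖` (`padicNorm.add_eq_max_of_ne`). For all `a + b = k`:
`(2a+1) C(2r,2a+1) = 2r C(2r-1,2a)` gives `‖C(2r,2a+1)‖ ≤ ‖2r‖`, so `‖bz a b‖ ≤ max(1, 4^r ‖2r‖)`.
`C(2r,2a+1) = C(2r,2b+1)` by symmetry, so `bz a b - bz b a = C(2r,2b+2) - C(2r,2a+2)` is an integer,
of norm `≤ 1`. -/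
def Ar1S : Prop := ∀ k : ℕ, 1 < padicNorm 2 (bz 0 k) ∧ ∀ a b : ℕ, a + b = k →
  padicNorm 2 (bz a b) ≤ padicNorm 2 (bz 0 k) ∧ padicNorm 2 (bz a b - bz b a) ≤ 1

/-- [end] the coefficient of `(x₀x₁)^(k+1) x₀`.
PROOF. The shuffle relation of the letter `x₀` with the word `(x₀x₁)^(k+1)` (the sum of the coefficients of
a Lie element over all insertions of a letter in a nonempty word is 0, `lie_ins` or similar): the
insertions before and after the letter `x₀` of the `i`-th block give both the word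
`hoff (rep i ++ true :: rep (k-i))`, the last one gives `hoff (rep (k+1)) ++ [false]`. So
`e = -2 Σ_{i ≤ k} (ψ | hoff (rep i ++ true :: rep (k-i)))`. Insert the hypothesis and use, with `r = k+1`,
`Σ_{j=1}^{r} C(2r,2j) = 2^(2r-1) - 1`, `Σ_{j<r} C(2r,2j+1) = 2^(2r-1)`:
`Σ_i bz i (k-i) = 2^(2r-1) - 1 - (1 - 4^(-r)) 2^(2r-1) = -1/2`. -/
def EndS : Prop := ∀ ψ ∈ LieX, ∀ (k : ℕ) (κ : ℚ),
  (∀ a b : ℕ, a + b = k →
    coeff ψ (hoff (rep a ++ true :: rep b)) = 2 * (-1) ^ (k + 1) * bz a b * κ) →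
  coeff ψ (hoff (rep (k + 1)) ++ [false]) = 2 * (-1) ^ (k + 1) * κ

/-- [lin] linear independence. (Assume [inj].)
PROOF. By induction on `n`: a linear relation `Σ_i c_i e_i = 0` (finite) between the `e_i`, `i = (l,j)`, with
`l.length < n`, is trivial. Group the relation by the first letter of `l`: with `c_j = c_{([],j)}` and
`g_r = Σ_{(l,j)} c_{(r::l,j)} e_{(l,j)}` (finitely supported) it says
`(Σ_j c_j [b = rep j]) + Σ_r T (F r) b (g_r) = 0` (`T` is linear in `g`), so all `g_r = 0` by [inj], so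
`c_{(r::l,j)} = 0` by the induction hypothesis, and then `c_j = 0`. -/
def LinS : Prop := EstS → InjS → ∀ (F : ℕ → List Bool → ℚ), (∀ k, Good k (F k)) →
  ∀ (e : List ℕ × ℕ → List Bool → ℚ),
    (∀ j b, e ([], j) b = if b = rep j then 1 else 0) →
    (∀ k l j b, e (k :: l, j) b = T (F k) b (e (l, j))) →
    (∀ i, {b | e i b ≠ 0}.Finite) → LinearIndependent ℚ e

/-- [eqv] the index sets.
PROOF. `([], j) ↦ rep j`, `(k :: l, j) ↦ rep k ++ true :: (image of (l, j))`; the inverse is
`[] ↦ ([], 0)`, `true :: b ↦ (0 :: l, j)`, `false :: b ↦ ([], j+1)` resp. `(k+1 :: l, j)` if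
`b ↦ ([], j)` resp. `(k :: l, j)`. -/
def EqvS : Prop := ∃ e : (List ℕ × ℕ) ≃ List Bool, ∀ i, (hoff (e i)).length = iwt i

/-- [bas] from linear independence to a basis in weight `N`. (Assume [eqv].)
PROOF. Linear independence: a relation between the restrictions of the `e_i`, `iwt i = N`, to the words
of weight `N` is a relation between the `e_i` since they vanish on the other words. Then: the
set of `b` with `(hoff b).length = N` is finite (`b.length ≤ N`), the two index types have the same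
cardinality by [eqv] (`Equiv.subtypeEquiv`), and `LinearIndependent.span_eq_top_of_card_eq_finrank`. -/
def BasS : Prop := EqvS → ∀ (e : List ℕ × ℕ → List Bool → ℚ), LinearIndependent ℚ e →
  (∀ i b, (hoff b).length ≠ iwt i → e i b = 0) → ∀ N : ℕ,
    LinearIndependent ℚ (fun (i : {i : List ℕ × ℕ // iwt i = N})
      (b : {b : List Bool // (hoff b).length = N}) => e i.1 b.1) ∧
    Submodule.span ℚ (Set.range (fun (i : {i : List ℕ × ℕ // iwt i = N})
      (b : {b : List Bool // (hoff b).length = N}) => e i.1 b.1)) = ⊤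

/-- [lie] `[S_a, S_b] = S_{a,b}` for the Ihara bracket.
PROOF. `D_a D_b - D_b D_a = D_c` with `c = ihara a b`: for `φ = word u` by induction on `u` (`der_mul`; on the
letter `x₁`: `D_a [x₁,b] - D_b [x₁,a] = [x₁, a b - b a + D_a b - D_b a]`), then `linear_ext`. Then expand. -/
def LieS : Prop := ∀ a b φ : QX, act a (act b φ) - act b (act a φ) = act (ihara a b) φ

section

attribute [local instance 100] LieRing.ofAssociativeRing

/-- [fre] freeness. (Assume [lie].)
PROOF. Let `ev : FreeAlgebra ℚ ℕ →ₐ End(QX)`, `ι k ↦ S_{ψ k}` (linear in `φ`). The elements `P` for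
which `ev P = S_a` for some `a ∈ QX` (then `a = ev P 1`, as `S_a(1) = a`) contain the letters, form
a subspace (`S_a` is linear in `a`) and are closed under commutators by [lie]; so all `P ∈ LieN` are of
this form (`LieSubalgebra.lieSpan_induction` or `lieSpan_le`). Put `Λ P = ev P 1`. Then
`Λ (ι k) = ψ k`, `Λ [P,Q] = S_{ΛP} S_{ΛQ} 1 - S_{ΛQ} S_{ΛP} 1 = ihara (ΛP) (ΛQ)`. Injectivity: if
`Λ P = 0` then `ev P = S_0 = 0`... and `ev P 1 = Σ_l (P|l) elt ψ l 0 = 0` directly (`ev (word l) 1 = elt ψ l 0`),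
so all coefficients of `P` vanish by linear independence. -/
def FreS : Prop := LieS → ∀ ψ : ℕ → QX, LinearIndependent ℚ (fun l : List ℕ => elt ψ l 0) →
  ∃ L : LieN →ₗ[ℚ] QX, Function.Injective L ∧
    (∀ (k : ℕ) (h : FreeAlgebra.ι ℚ k ∈ LieN), L ⟨FreeAlgebra.ι ℚ k, h⟩ = ψ k) ∧
    ∀ P Q : LieN, L ⁅P, Q⁆ = ihara (L P) (L Q)

end

end Pool.Agent.MP_a57f33_nt.FL
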