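import Pool.Agent.Lib.MP_a57f33_nt.FL.Defs

/-!
# Free lifts: independence of the lifts (one more piece)
-/

namespace Pool.Agent.MP_a57f33_nt.FL

open Pool.Agent.MP_a57f33_nt

section

attribute [local instance 100] LieRing.ofAssociativeRing

/-- A family of lifts: homogeneous elements of `dm₀` of weights 3, 5, 7, … with nonzero
coefficient of `x₀^(2k+2) x₁`, and the Lie algebra map defined by it. -/
structure Lifts (ψ : ℕ → QX) (L : LieN →ₗ[ℚ] QX) : Prop where
  mem : ∀ k, ψ k ∈ dm0
  hom : ∀ k, IsHom (2 * k + 3) (ψ k)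
  ne : ∀ k, coeff (ψ k) (List.replicate (2 * k + 2) false ++ [true]) ≠ 0
  gen : ∀ (k : ℕ) (h : FreeAlgebra.ι ℚ k ∈ LieN), L ⟨FreeAlgebra.ι ℚ k, h⟩ = ψ k
  br : ∀ P Q : LieN, L ⁅P, Q⁆ = ihara (L P) (L Q)

/-- [rng] if one family of lifts generates `dm₀`, so does every other family.
PROOF. Let `G' = range L'`, a subspace of `QX` closed under `ihara` (`Lifts.br` for `L'`). Claim: every
`ψ k ∈ G'`. Then `range L ⊆ G'` (`P ∈ LieN`: induction on the Lie subalgebra generated by the letters,
`LieSubalgebra.lieSpan_induction` or the trick: the set of `P ∈ LieN` with `L P ∈ G'` is a Lie subalgebra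
containing the letters), so `dm₀ ⊆ range L ⊆ G'`.
Proof of the claim by strong induction on `k`. Let `S` be the smallest subspace of `QX` that contains
`ψ j`, `j < k`, and is closed under `ihara` (or: `S = G'` itself! only closure under `ihara` and
`ψ j ∈ S` for `j < k` is used; so take `S = G'`). For `x ∈ QX` let `x_n` be the homogeneous part of
weight `n` (the combination of the words of length `n`; e.g. the linear map with
`word w ↦ if w.length = n then word w else 0`). Let `W` be the set of `x ∈ QX` with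
  (i) `x_0 = 0`, (ii) `x_n ∈ G'` for all `n < 2k+3`,
  (iii) `x_(2k+3) = c ψ_k + y` for some `c ∈ ℚ` and `y ∈ G'` with `(y | x₀^(2k+2) x₁) = 0`, and
  (iv) `(x | x₀^n) = 0` for all `n` (`x` has no word without `x₁`).
`W` is a subspace and contains all `ψ j` (`j < k`: induction hypothesis, the part of weight `2k+3`
is 0; `j = k`: `c = 1, y = 0`; `j > k`: the parts of weight `≤ 2k+3` are 0; (iv): `ψ j` is in `LieX`
with `(ψ j | x₀) = 0`). `W` is closed under `ihara`: `(ihara x x')_n = ∑_(a+b=n) ihara x_a x'_b`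
(`ihara` is bilinear and adds weights; `IharaLemmas.lean` has what was needed for `IsHom`), for
`n ≤ 2k+3` only `a, b < 2k+3` occur by (i), so the sum is in `G'`, and its coefficient at `x₀^(n-1) x₁` is 0
(and at `x₀^n`): `ihara x x'` for `x, x'` without words in `x₀` alone has only words with at least two
letters `x₁` (`[x,x']`, `D_x(x')`, `D_x'(x)`: each `x₁` of `x'` is replaced by `[x₁, x]`). So `range L ⊆ W`.
Now `ψ' k ∈ dm₀ ⊆ range L ⊆ W` is homogeneous of weight `2k+3`: `ψ' k = c ψ_k + y`, and the coefficient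
at `x₀^(2k+2) x₁` gives `c ≠ 0`. Hence `ψ_k = c⁻¹ (ψ' k - y) ∈ G'`, because `ψ' k = L' e_k ∈ G'`. -/
def RngS : Prop := ∀ (ψ ψ' : ℕ → QX) (L L' : LieN →ₗ[ℚ] QX), Lifts ψ L → Lifts ψ' L' →
  (∀ x ∈ dm0, ∃ P, L P = x) → ∀ x ∈ dm0, ∃ P, L' P = x

end

end Pool.Agent.MP_a57f33_nt.FL
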